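import Pool.Agent.H121.MY.Fin
import Pool.Agent.H987.Y.Fin
import Pool.Agent.H199.MY.Gauge
import Pool.Agent.H333.MY.SigY
import Pool.Agent.H548.MY.TopY

/-! Project MY: the theorem without hypotheses. -/

set_option autoImplicit false

open scoped BigOperators
open MeasureTheory

namespace Pool.Agent.H121.MY

open Pool.Agent.Y662.TR (dv LL)
open Pool.Agent.H987.Y
open Pool.Agent.H987.Z (SqS IsSp)

theorem weak_ok (d : ℕ) (hd : 1 ≤ d) (α β : ℝ) (hα : 0 < α) (hαβ : α ≤ β) (hβ : β < 4 * d)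
    (h2 : d = 2 → β < 4 ∨ 4 < α) (ε : ℝ) (hε : 0 < ε) :
    ∃ (lam0 : ℝ) (a m : ℕ → ℝ), 0 < lam0 ∧ (∀ k, 0 < a k) ∧ (∀ k, 1 ≤ m k) ∧
      (∀ p : ℝ, 0 < p → Summable fun k => a k ^ p * m k) ∧ (Summable fun k => a k * m k) ∧
      ∑' k, a k * m k ≤ ε ∧
      ∀ (μ : Measure ℝ) [IsProbabilityMeasure μ], (∀ᵐ s ∂μ, |s| ≤ 1) →
      ∃ A : Lt d → Lt d → ℝ, Cls d a m A ∧
        ∀ᵐ lam ∂(volume.restrict (Set.Ioc 0 lam0)),
          ∀ᵐ ω ∂(Measure.infinitePi fun _ : Lt d => μ),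
            ACo (HamC A lam ω) α β fun x y => dv x y := by
  have hc := Pool.Agent.H194.Z987.conv
  have hg := Pool.Agent.H304.Z987.green
  have h1 := Pool.Agent.H284.Z987.hutri
  have hop := Pool.Agent.H168.Y987.op
  have heqv := Pool.Agent.H215.Y987.eqv hop
  have hmeas := Pool.Agent.H800.Y987.meas hop
  have htr := Pool.Agent.H410.Y987.troot hop
  have hfree := Pool.Agent.H788.Y987.free hop
  have hA := Pool.Agent.H332.Y987.hullA hfree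
  have hsep := Pool.Agent.H796.Y987.sep
  have hdig := Pool.Agent.H588.Y987.dig
  exact weakN Pool.Agent.H199.MY.gauge hop hmeas Pool.Agent.H295.Y987.ac2 hg
    (Pool.Agent.H795.Y987.bootk h1 Pool.Agent.H271.Z987.lln Pool.Agent.H628.Z987.star hg hop hmeas
      htr Pool.Agent.H588.Y987.tsplit)
    (Pool.Agent.H909.Y987.closek hop htr)
    (Pool.Agent.H297.Y987.net hop heqv hmeas htr hsep (Pool.Agent.H757.Y987.cov hop htr)
      (Pool.Agent.H323.Y987.fold Pool.Agent.H578.Y987.tile Pool.Agent.H383.Z987.word) hg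
      Pool.Agent.H784.Z987.mom h1)
    hfree hsep hdig hA
    (Pool.Agent.H825.Y987.hullB hA hdig heqv hmeas hop hg hsep)
    Pool.Agent.H168.Y987.kact (Pool.Agent.H734.Z987.free1 hc hg)
    (Pool.Agent.H548.Z987.free2 hc hg) (Pool.Agent.H383.Z987.free3 hc hg)
    d hd α β hα hαβ hβ h2 ε hε

theorem dv_eq {X : Type} [DecidableEq X] (p : X) :
    (fun x => (dv p : LL X) x) = fun x => if x = p then (1 : ℂ) else 0 := by
  funext x
  rw [Pool.Agent.Y662.TR.dv_apply]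
  congr

/-- **the theorem** -/
theorem main (d : ℕ) (hd : 1 ≤ d) (α β : ℝ) (hα : 0 < α) (hαβ : α ≤ β) (hβ : β < 4 * d)
    (h2 : d = 2 → β < 4 ∨ 4 < α) (ε : ℝ) (hε : 0 < ε) :
    ∃ κ lam0 : ℝ, 0 < κ ∧ κ ≤ ε ∧ 0 < lam0 ∧ ∀ D : ℝ, 1 ≤ D →
      ∃ (ψ : ℕ → ℝ) (lam1 : ℝ), (∀ n, 0 < ψ n) ∧ 0 < lam1 ∧
      (∃ μ : Measure ℝ, IsProbabilityMeasure μ ∧ (∀ᵐ v ∂μ, |v| ≤ 1) ∧
        (∀ E : Set ℝ, MeasurableSet E → μ E ≤ ENNReal.ofReal D * volume E) ∧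
        (∀ E : Set ℝ, MeasurableSet E → μ ((fun v => -v) ⁻¹' E) = μ E) ∧
        (∀ δ : ℝ, 0 < δ → 0 < μ (Set.Iio (-1 + δ))) ∧
        ∀ N : ℕ, ∃ n : ℕ, N ≤ n ∧ μ (Set.Iio (-1 + 1 / (n : ℝ))) ≤ ENNReal.ofReal (ψ n)) ∧
      ∀ (μ : Measure ℝ) [IsProbabilityMeasure μ], (∀ᵐ v ∂μ, |v| ≤ 1) →
      ∃ A : (Fin d → ℤ) → (Fin d → ℤ) → ℝ,
        (∀ x y, 0 ≤ A x y) ∧ (∀ x y, A x y = A y x) ∧ (∀ x, HasSum (fun y => A x y) κ) ∧
        (∀ p : ℝ, 0 < p → ∃ S : ℝ, ∀ x, (Summable fun y => A x y ^ p) ∧ ∑' y, A x y ^ p ≤ S) ∧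
        (∀ δ : ℝ, 0 < δ → ∃ (N R : ℕ) (B : (Fin d → ℤ) → (Fin d → ℤ) → ℝ), 0 < N ∧
          (∀ x y v, B (x + (N : ℤ) • v) (y + (N : ℤ) • v) = B x y) ∧
          (∀ x y, B x y ≠ 0 → ∀ i, |x i - y i| ≤ R) ∧
          ∀ x, (Summable fun y => |A x y - B x y|) ∧ ∑' y, |A x y - B x y| ≤ δ) ∧
        (∀ᵐ lam ∂(volume.restrict (Set.Ioc 0 lam0)),
          ∀ᵐ ω ∂(Measure.infinitePi fun _ : Fin d → ℤ => μ),
            ACo (HamC A lam ω) α β fun x y => dv x y) ∧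
        ((∀ E : Set ℝ, MeasurableSet E → μ E ≤ ENNReal.ofReal D * volume E) →
          ((∀ δ : ℝ, 0 < δ → 0 < μ (Set.Iio (-1 + δ))) →
            (∀ N : ℕ, ∃ n : ℕ, N ≤ n ∧ μ (Set.Iio (-1 + 1 / (n : ℝ))) ≤ ENNReal.ofReal (ψ n)) →
            ∀ lam : ℝ, 0 < lam → ∃ E0 : ℝ, -lam < E0 ∧ E0 < 0 ∧
              ∀ᵐ ω ∂(Measure.infinitePi fun _ : Fin d → ℤ => μ),
                (∀ f : (Fin d → ℤ) → ℂ, SqS f → ∃ m : Measure ℝ, IsSp (HamC A lam ω) f m) ∧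
                PPi (HamC A lam ω) (Set.Iio E0) ∧
                ∃ (t : ℝ) (u : (Fin d → ℤ) → ℂ), t < E0 ∧ SqS u ∧ (∃ p, u p ≠ 0) ∧
                  ∀ p, HamC A lam ω u p = (t : ℂ) * u p) ∧
          (∀ lam : ℝ, lam1 ≤ lam → ∀ᵐ ω ∂(Measure.infinitePi fun _ : Fin d → ℤ => μ),
            (∀ f : (Fin d → ℤ) → ℂ, SqS f → ∃ m : Measure ℝ, IsSp (HamC A lam ω) f m) ∧
            PPi (HamC A lam ω) Set.univ)) := by
  obtain ⟨lam0, a, m, hl0, ha, hm, hp, hs, hε', hw⟩ := weak_ok d hd α β hα hαβ hβ h2 ε hε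
  have hκ : 0 < ∑' k, a k * m k := by
    refine lt_of_lt_of_le (mul_pos (ha 0) (lt_of_lt_of_le one_pos (hm 0))) ?_
    exact hs.le_tsum 0 fun k _ => mul_nonneg (ha k).le (zero_le_one.trans (hm k))
  refine ⟨∑' k, a k * m k, lam0, hκ, hε', hl0, fun D hD => ?_⟩
  obtain ⟨ψ, lam1, hψ, hl1, hloc⟩ := locC Pool.Agent.H333.MY.sigY Pool.Agent.H548.MY.topY d hd a m
    (fun k => (ha k).le) (fun k => zero_le_one.trans (hm k)) hp D (by linarith)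
  refine ⟨ψ, lam1, hψ, hl1, ?_, fun μ _ hμ => ?_⟩
  · obtain ⟨μ, e1, e2, e3, e4, e5, e6⟩ := Pool.Agent.H630.ME.s_law ψ hψ
    have hrefl : ∀ t : ℝ, μ (Set.Iio (-t)) = μ (Set.Ioi t) := by
      intro t
      rw [← e4 _ measurableSet_Iio]
      congr 1
      ext v
      simp only [Set.mem_preimage, Set.mem_Ioi, Set.mem_Iio]
      constructor <;> intro h <;> linarith
    refine ⟨μ, e1, e2, fun A hA => (e3 A hA).trans ?_, e4, fun δ hδ => ?_, fun N => ?_⟩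
    · calc volume A = 1 * volume A := (one_mul _).symm
        _ ≤ ENNReal.ofReal D * volume A := by
            gcongr
            rw [← ENNReal.ofReal_one]
            exact ENNReal.ofReal_le_ofReal hD
    · have h5 : -1 + δ = -(1 - δ) := by ring
      rw [h5, hrefl]
      exact e5 δ hδ
    · refine ⟨max N 2, le_max_left _ _, ?_⟩
      have h5 : -1 + 1 / ((max N 2 : ℕ) : ℝ) = -(1 - 1 / ((max N 2 : ℕ) : ℝ)) := by ring
      rw [h5, hrefl]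
      exact e6 _ (le_max_right _ _)
  · obtain ⟨A, hA, hac⟩ := hw μ hμ
    refine ⟨A, hA.nn, hA.sy, hA.rs, hA.mom hp, fun δ hδ => ?_, hac, fun hμD => ?_⟩
    · obtain ⟨N, R, h, B, b1, b2, b3⟩ := hA.ap δ hδ
      exact ⟨N, R, B, b1, b2.per, b2.rng, fun x => ⟨b3.sm x, b3.le x⟩⟩
    · exact hloc A hA μ hμ hμD

end Pool.Agent.H121.MY
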