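import Pool.Agent.H121.MY.Cls

/-! Project MY: weak disorder (copy of the first part of `main_lattice` in
`Pool/Agent/H987/Y/Main.lean`, with the opposite sign of the hopping). -/

set_option autoImplicit false
set_option linter.unusedSectionVars false

open scoped BigOperators InnerProductSpace Topology
open Filter MeasureTheory

namespace Pool.Agent.H121.MY

open Pool.Agent.Y662.TR (LL Cf Mw dv hu hu_nonneg clp clp_eq clp_abs lmk ll_inner ll_ext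
  ll_summable dv_apply sub_coord smul_coord Mw_apply add_coord)
open Pool.Agent.TH369.AN (Rz rz_eq rz_uniq)
open Pool.Agent.TH369.MU (SpM spm_exists)
open Pool.Agent.H987.Z (Rs Gr Fr gZ HV S_green S_loc SqS IsSp sp_of of_sp free_ok S_free1 S_free2
  S_free3 Bd hu_meas)
open Pool.Agent.H987.Y
open Pool.Agent.H582.Y987 (swap_sum pow_small ks_nonneg ks_hasSum ks_int)

/-- the kernel of the hull with nonnegative amplitudes -/
theorem cls_of {d : ℕ} (hA : S_hullA) (Q M R : ℕ → ℕ) (a : ℕ → ℝ)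
    (σ : (k : ℕ) → Fin (M k + 1) → Lt d → Lt d) (hQ0 : ∀ k, 0 < Q k) (ha0 : ∀ k, 0 < a k)
    (hs1 : Summable fun k => a k * ((M k : ℝ) + 1))
    (hs3 : ∀ p : ℝ, 0 < p → Summable fun k => a k ^ p * ((M k : ℝ) + 1))
    (hnt : ∀ k, Net (pQ Q (k + 1)) (R k) (a k * (M k + 1)) fun x y => -a k * kσ (σ k) x y)
    (u : Hu d Q) :
    Cls d a (fun k => (M k : ℝ) + 1) (tA (fun k x y => a k * kσ (σ k) x y) u) ∧
    ∀ x y, tA (fun k x y => -a k * kσ (σ k) x y) u x y =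
      -tA (fun k x y => a k * kσ (σ k) x y) u x y := by
  have hnt' : ∀ k, Net (pQ Q (k + 1)) (R k) (a k * (M k + 1)) fun x y => a k * kσ (σ k) x y := by
    intro k
    have h1 := Net.neg (hnt k)
    have h2 : (fun x y => -(-a k * kσ (σ k) x y)) = fun x y => a k * kσ (σ k) x y := by
      funext x y
      ring
    rw [h2] at h1
    exact h1
  obtain ⟨u1, u2, u3, u4, u5, u6⟩ := hA d Q (fun k x y => a k * kσ (σ k) x y)
    (fun k => a k * (M k + 1)) R hQ0 hnt' hs1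
  have ha' : ∀ n, 0 ≤ a n := fun n => (ha0 n).le
  have e : ∀ x y, tA (fun k x y => a k * kσ (σ k) x y) u x y =
        ∑' k, a k * kσ (σ k) (x + hd (k + 1) u) (y + hd (k + 1) u) := fun x y => rfl
  refine ⟨⟨fun x y => ?_, (u1 u).sy, fun x => ?_, fun s hs hs1' x => ?_, fun δ hδ => ?_⟩,
    fun x y => ?_⟩
  · rw [e]
    exact tsum_nonneg fun k => mul_nonneg (ha' k) (ks_nonneg _ _ _)
  · simp only [e]
    exact swap_sum (fun k y => kσ (σ k) (x + hd (k + 1) u) (y + hd (k + 1) u))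
      (fun k => (M k : ℝ) + 1) (fun k y => ks_nonneg _ _ _) (fun k => ks_hasSum _ _ _) a ha' hs1
  · simp only [e]
    exact pow_small (fun k y => kσ (σ k) (x + hd (k + 1) u) (y + hd (k + 1) u))
      (fun k => (M k : ℝ) + 1) (fun k y => ks_nonneg _ _ _) (fun k => ks_hasSum _ _ _)
      (fun k y => ks_int _ _ _) a ha' hs1 s hs hs1' (hs3 s hs)
  · have h5 := tendsto_sum_nat_add (fun k => a k * ((M k : ℝ) + 1))
    have h6 := (h5.eventually_lt_const hδ).exists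
    obtain ⟨n, hn⟩ := h6
    obtain ⟨R', B, b1, b2⟩ := u6 u n
    refine ⟨pQ Q n, R', _, B, ?_, b1, b2.mono ?_⟩
    · unfold pQ
      exact Finset.prod_pos fun k _ => hQ0 k
    · refine le_trans (le_of_eq ?_) hn.le
      refine tsum_congr fun k => ?_
      rw [add_comm n k]
  · unfold tA
    rw [← tsum_neg]
    refine tsum_congr fun k => ?_
    ring

/-- what is proved for one conductance and one disorder -/
def ACo {X : Type} (H : (X → ℂ) → X → ℂ) (α β : ℝ) (δ : X → X → ℂ) : Prop :=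
  (∀ f : X → ℂ, SqS f → ∃ m : Measure ℝ, IsSp H f m) ∧
  (∀ (f : X → ℂ) (m : Measure ℝ), SqS f → IsSp H f m →
    ∀ E : Set ℝ, E ⊆ Set.Icc α β → volume E = 0 → m E = 0) ∧
  (∀ (x : X) (m : Measure ℝ), IsSp H (δ x) m →
    ∀ E : Set ℝ, E ⊆ Set.Icc α β → MeasurableSet E → m E = 0 → volume E = 0)

/-- affine changes -/
theorem aco_aff {X : Type} (H H' : (X → ℂ) → X → ℂ) (κ : ℝ)
    (hH : ∀ u : X → ℂ, SqS u → ∀ x, H u x = H' u x + (κ : ℂ) * u x) (α β α' β' : ℝ)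
    (hα : α' ≤ α - κ) (hβ : β - κ ≤ β') (δ : X → X → ℂ) (h : ACo H' α' β' δ) : ACo H α β δ := by
  have e1 : ∀ u : X → ℂ, SqS u → ∀ x, H u x = ((1 : ℝ) : ℂ) * H' u x + (κ : ℂ) * u x := by
    intro u hu x
    rw [hH u hu]
    push_cast
    ring
  have e2 : ∀ u : X → ℂ, ∀ x, H' (fun y => ((1 : ℝ) : ℂ) * u y) x = ((1 : ℝ) : ℂ) * H' u x := by
    intro u x
    simp
  obtain ⟨h1, h2, h3⟩ := h
  have hsub : ∀ E : Set ℝ, E ⊆ Set.Icc α β → (fun t : ℝ => 1 * t + κ) ⁻¹' E ⊆ Set.Icc α' β' := by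
    intro E hE t ht
    have := hE ht
    simp only [one_mul] at this
    exact ⟨by linarith [this.1], by linarith [this.2]⟩
  refine ⟨fun f hf => ?_, fun f m hf hm E hE hE0 => ?_, fun x m hm E hE hEm hE0 => ?_⟩
  · obtain ⟨m, hm⟩ := h1 f hf
    obtain ⟨m1, m2⟩ := hm
    refine ⟨m.map fun E => E + κ, Measure.isFiniteMeasure_map m _, fun z hz => ?_⟩
    obtain ⟨u, hu, hu1, hu2⟩ := m2 (z - κ) (by simpa using hz)
    refine ⟨u, hu, fun x => ?_, ?_⟩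
    · rw [hH u hu, ← hu1 x]
      ring
    · rw [← hu2, integral_map (by fun_prop) (by fun_prop)]
      refine integral_congr_ae (Eventually.of_forall fun E => ?_)
      show (((E + κ : ℝ) : ℂ) - z)⁻¹ = ((E : ℂ) - (z - κ))⁻¹
      congr 1
      push_cast
      ring
  · have h4 := aff H H' 1 κ (Or.inl rfl) e1 e2 f m hm
    rw [← map_aff m 1 κ (Or.inl rfl) E]
    exact h2 f _ hf h4 _ (hsub E hE) (vol_aff 1 κ (Or.inl rfl) E hE0)
  · have h4 := aff H H' 1 κ (Or.inl rfl) e1 e2 _ m hm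
    rw [← map_aff m 1 κ (Or.inl rfl) E] at hE0
    have h5 := h3 x _ h4 _ (hsub E hE) ((by fun_prop : Measurable fun t : ℝ => 1 * t + κ) hEm) hE0
    have h6 : (fun t : ℝ => 1 * t + κ) = fun t => t + κ := by
      funext t
      ring
    rw [h6, measure_preimage_add_right] at h5
    exact h5

set_option maxHeartbeats 1000000 in
/-- **weak disorder** -/
theorem weakN (hgau : S_gauge) (hop : S_op) (hmeas : S_meas) (hac : S_ac2) (hg : S_green)
    (hboot : S_bootk) (hclose : S_closek) (hnet : S_net) (hfree : S_free) (hsep : S_sep)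
    (hdig : S_dig) (hA : S_hullA) (hB : S_hullB) (hkact : S_kact) (hf1 : S_free1)
    (hf2 : S_free2) (hf3 : S_free3)
    (d : ℕ) (hd : 1 ≤ d) (α β : ℝ) (hα : 0 < α) (hαβ : α ≤ β) (hβ : β < 4 * d)
    (h2 : d = 2 → β < 4 ∨ 4 < α) (ε : ℝ) (hε : 0 < ε) :
    ∃ (lam0 : ℝ) (a m : ℕ → ℝ), 0 < lam0 ∧ (∀ k, 0 < a k) ∧ (∀ k, 1 ≤ m k) ∧
      (∀ p : ℝ, 0 < p → Summable fun k => a k ^ p * m k) ∧ (Summable fun k => a k * m k) ∧
      ∑' k, a k * m k ≤ ε ∧
      ∀ (μ : Measure ℝ) [IsProbabilityMeasure μ], (∀ᵐ s ∂μ, |s| ≤ 1) →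
      ∃ A : Lt d → Lt d → ℝ, Cls d a m A ∧
        ∀ᵐ lam ∂(volume.restrict (Set.Ioc 0 lam0)),
          ∀ᵐ ω ∂(Measure.infinitePi fun _ : Lt d => μ),
            ACo (HamC A lam ω) α β fun x y => dv x y := by
  classical
  obtain ⟨α', β', cc, CC, hα', hβ', hF⟩ := free_ok hf1 hf2 hf3 d hd α β hα hβ h2
  obtain ⟨α1, hα1⟩ : ∃ α1 : ℝ, α1 = (α + α') / 2 := ⟨_, rfl⟩
  obtain ⟨β1, hβ1⟩ : ∃ β1 : ℝ, β1 = (β + β') / 2 := ⟨_, rfl⟩
  obtain ⟨d', rfl⟩ : ∃ d', d = d' + 1 := ⟨d - 1, by omega⟩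
  have hε' : 0 < min ε ((α - α') / 4) := lt_min hε (by linarith)
  obtain ⟨lam0, Q, M, R, a, σ, hl0, hl1, hQ0, hinv, ha0, hs1, hs2, hs3, hnt, hmain⟩ :=
    iterN hgau hboot hclose hnet hfree hsep hA hB d' α1 β1 α' β' cc CC (min ε ((α - α') / 4))
      (by linarith) (by linarith) (by linarith) hF hε'
  have hκε : ∑' k, a k * ((M k : ℝ) + 1) ≤ ε := hs2.trans (min_le_left _ _)
  have hκα : ∑' k, a k * ((M k : ℝ) + 1) ≤ (α - α') / 4 := hs2.trans (min_le_right _ _)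
  have hκ0 : 0 ≤ ∑' k, a k * ((M k : ℝ) + 1) := tsum_nonneg fun k => by
    have := ha0 k
    positivity
  refine ⟨lam0, a, fun k => (M k : ℝ) + 1, hl0, ha0, fun k => by simp, hs3, hs1,
    hκε, fun μ _ hμ => ?_⟩
  obtain ⟨Ak, hAk⟩ : ∃ Ak : ℕ → Lt (d' + 1) → Lt (d' + 1) → ℝ,
      Ak = fun k x y => -a k * kσ (σ k) x y := ⟨_, rfl⟩
  have hnt' : ∀ k, Net (pQ Q (k + 1)) (R k) (a k * (M k + 1)) (Ak k) := by
    intro k
    rw [hAk]
    exact hnt k
  obtain ⟨u1, u2, u3, u4, u5, u6⟩ := hA (d' + 1) Q Ak (fun k => a k * (M k + 1)) R hQ0 hnt' hs1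
  obtain ⟨hPH, -, -⟩ := hdig (d' + 1) Q hQ0
  rw [← hAk] at hmain
  obtain ⟨h, hh⟩ : ∃ h : ℝ, h = 4 * ((d' + 1 : ℕ) : ℝ) + ∑' k, a k * ((M k : ℝ) + 1) := ⟨_, rfl⟩
  rw [← hh] at u2
  -- the random operators
  have hh0 : 0 ≤ h := by
    rw [hh]
    positivity
  obtain ⟨Pl, hPl⟩ : ∃ Pl : Measure ℝ, Pl = (volume (Set.Ioc 0 lam0))⁻¹ •
      volume.restrict (Set.Ioc 0 lam0) := ⟨_, rfl⟩
  have hvol : volume (Set.Ioc 0 lam0) ≠ 0 := by
    rw [Real.volume_Ioc, sub_zero]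
    simpa using hl0
  have hvol2 : volume (Set.Ioc 0 lam0) ≠ ⊤ := by
    rw [Real.volume_Ioc]
    exact ENNReal.ofReal_ne_top
  have hPlp : IsProbabilityMeasure Pl := by
    refine ⟨?_⟩
    rw [hPl, Measure.smul_apply, Measure.restrict_apply_univ, smul_eq_mul,
      ENNReal.inv_mul_cancel hvol hvol2]
  have hPlae : ∀ {p : ℝ → Prop}, (∀ᵐ t ∂Pl, p t) ↔ ∀ᵐ t ∂(volume.restrict (Set.Ioc 0 lam0)), p t := by
    intro p
    rw [hPl, Measure.ae_ennreal_smul_measure_iff (ENNReal.inv_ne_zero.2 hvol2)]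
  have hPlI : ∀ᵐ t ∂Pl, t ∈ Set.Ioc 0 lam0 := by
    rw [hPlae]
    exact ae_restrict_mem measurableSet_Ioc
  obtain ⟨K, hKd⟩ : ∃ K : Hu (d' + 1) Q → Lt (d' + 1) → Lt (d' + 1) → ℝ,
      K = fun u x y => kf (d' + 1) x y + tA Ak u x y := ⟨_, rfl⟩
  have hK : ∀ u, Ker h (K u) := by
    rw [hKd]
    exact u2
  have hKm : ∀ x x', Measurable fun u => K u x x' := by
    intro x x'
    rw [hKd]
    exact measurable_const.add (u3 x x')
  have hmain' : ∀ (ν : Measure ℝ) [IsProbabilityMeasure ν], (∀ᵐ t ∂ν, |t| ≤ lam0) →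
      ∀ z : ℂ, α1 ≤ z.re → z.re ≤ β1 → 0 < z.im → z.im ≤ 1 → ∀ x : Lt (d' + 1),
        ∫ q, hu (Gr (Op (kr K q)) z x x) (gZ (d' + 1) z) ^ 2
          ∂((PH (d' + 1) Q).prod (Measure.infinitePi fun _ : Lt (d' + 1) => ν)) ≤ 1 / 100 := by
    rw [hKd]
    exact hmain
  have hae := hac (Lt (d' + 1)) _
    (Pl.prod ((PH (d' + 1) Q).prod (Measure.infinitePi fun _ : Lt (d' + 1) => μ)))
    (fun q => Op (kq K q)) (h + 1)
    (gZ (d' + 1)) α1 β1 cc CC (1 / 100) (fun q => (hop _ _ _ (ker_kq K hop hK q)).2.2.1.sa)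
    (fun q => (hop _ _ _ (ker_kq K hop hK q)).2.1)
    (fun z x y hz => hmeas _ _ (kq K) (h + 1) (ker_kq K hop hK) (meas_kq K hKm) z x y hz)
    (gZ_cont hop hg hfree (d' + 1))
    hF.c0 (fun z y1 y2 y3 y4 => ⟨hF.lo z (by linarith) (by linarith) y3 (by linarith),
      hF.up z (by linarith) (by linarith) y3 (by linarith)⟩)
    (fun z y1 y2 y3 y4 x => int_bound K hop hmeas hg (PH (d' + 1) Q) h hh0 hK hKm μ hμ lam0
      (1 / 100) z (gZ (d' + 1) z) y3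
      (hF.c0.trans_le (hF.lo z (by linarith) (by linarith) y3 (by linarith))) x
      (fun ν _ hν => hmain' ν hν z y1.le y2.le y3 y4 x) Pl hPlI)
  -- rearrange
  have hae4 := ae_rearr (PH (d' + 1) Q) (Measure.infinitePi fun _ : Lt (d' + 1) => μ) Pl _ hae
  obtain ⟨u, hu'⟩ := hae4.exists
  rw [hPlae] at hu'
  obtain ⟨hcls, hneg⟩ := cls_of hA Q M R a σ hQ0 ha0 hs1 hs3 hnt u
  obtain ⟨A, hAd⟩ : ∃ A, A = tA (fun k x y => a k * kσ (σ k) x y) u := ⟨_, rfl⟩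
  rw [← hAd] at hcls hneg
  rw [← hAk] at hneg
  have hAn : tA Ak u = fun x y => -A x y := by
    funext x y
    exact hneg x y
  have hbd : ∀ᵐ ω ∂(Measure.infinitePi fun _ : Lt (d' + 1) => μ), ∀ g, |ω g| ≤ 1 := by
    rw [ae_all_iff]
    intro g
    have h1 := (measurePreserving_eval_infinitePi (fun _ : Lt (d' + 1) => μ)
      g).quasiMeasurePreserving
    exact h1.ae hμ
  have hdv : ∀ p : Lt (d' + 1), SqS (fun x => (dv p : LL (Lt (d' + 1))) x) := fun p =>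
    ll_summable _
  refine ⟨A, hcls, ?_⟩
  filter_upwards [hu', ae_restrict_mem measurableSet_Ioc] with t ht htI
  filter_upwards [hbd, ht] with ω hω h5
  obtain ⟨h6, h7⟩ := h5
  refine aco_aff (HamC A t ω) (HamY (tA Ak u) t ω) (∑' k, a k * ((M k : ℝ) + 1)) ?_ α β
    (α - ∑' k, a k * ((M k : ℝ) + 1)) β le_rfl (by linarith) _ ?_
  · intro v hv x
    rw [hAn]
    exact ham_c hcls t ω v hv x
  have hT : Op (kq K (t, (u, ω))) = Op (fun x y => kf (d' + 1) x y + tA Ak u x y) +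
      Mw 1 (fun x => t * ω x) := by
    have h8 := ((hop _ _ _ (hK u)).2.2.2.1 fun x => t * ω x).2
    rw [hKd] at h8 ⊢
    exact h8
  have hAct : ∀ (v : LL (Lt (d' + 1))) (p : Lt (d' + 1)),
      HamY (tA Ak u) t ω (fun y => v y) p = Op (kq K (t, (u, ω))) v p := by
    intro v p
    rw [hT]
    exact act2 hop hkact (u1 u) (u2 u) t 1 (by
      rw [abs_of_pos htI.1, abs_one]
      exact htI.2.trans hl1) ω hω v p
  have hsa : IsSelfAdjoint (Op (kq K (t, (u, ω)))) := (hop _ _ _ (ker_kq K hop hK _)).2.2.1.sa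
  refine ⟨fun f hf => ?_, fun f m hf hm E hE1 hE2 => ?_, fun p m hm E hE1 hE2 hE3 => ?_⟩
  · obtain ⟨m, hm, -⟩ := spm_exists (Op (kq K (t, (u, ω)))) hsa (lmk f hf)
    exact ⟨m, of_sp _ _ hsa hAct f hf m hm⟩
  · refine h6 _ m (sp_of _ _ hsa hAct f hf m hm) E (hE1.trans ?_) hE2
    intro y hy
    exact ⟨by linarith [hy.1], by linarith [hy.2]⟩
  · have h8 := sp_of _ _ hsa hAct _ (hdv p) m hm
    have h9 : lmk (fun x => (dv p : LL (Lt (d' + 1))) x) (hdv p) = dv p := rfl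
    rw [h9] at h8
    refine h7 p m h8 E (hE1.trans ?_) hE2 hE3
    intro y hy
    exact ⟨by linarith [hy.1], by linarith [hy.2]⟩

end Pool.Agent.H121.MY
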