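import Pool.Agent.H121.MY.Edge
import Pool.Agent.H121.MY.Weak

/-! Project MY: assembly. -/

set_option autoImplicit false
set_option linter.unusedSectionVars false

open scoped BigOperators InnerProductSpace Topology ENNReal
open Filter MeasureTheory

namespace Pool.Agent.H121.MY

open Pool.Agent.Y662.TR (LL Cf Mw dv hu lmk ll_ext ll_summable clp_eq Mw_apply dv_apply)
open Pool.Agent.TH369.MU (SpM spm_exists)
open Pool.Agent.H987.Z (Rs SqS IsSp sp_of of_sp)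
open Pool.Agent.H987.Y
open Pool.Agent.H121.Z987 (wt HH HH_apply HH_rs)
open Pool.Agent.H121.ME (eE)

variable {d : ℕ} {a m : ℕ → ℝ} {A : Lt d → Lt d → ℝ}

/-! ### from `HamT` to `HamC` -/

theorem hamc_t (H : Cls d a m A) (lam : ℝ) (ω : Lt d → ℝ) (u : Lt d → ℂ) (hu : SqS u) (x : Lt d) :
    HamC A lam ω u x = ((-1 : ℝ) : ℂ) * HamT A lam (fun y => -ω y) u x +
      ((2 * (d : ℝ) + ∑' k, a k * m k : ℝ) : ℂ) * u x := by
  rw [ham_c H lam ω u hu x]
  have h4 : ∑' y, (((-A x y : ℝ)) : ℂ) * u y = -∑' y, ((A x y : ℝ) : ℂ) * u y := by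
    rw [← tsum_neg]
    refine tsum_congr fun y => ?_
    push_cast
    ring
  have h5 : ∑ i : Fin d, ((u (x + Pi.single i 1) - u x) + (u (x - Pi.single i 1) - u x)) =
      ∑ i : Fin d, (u (x + Pi.single i 1) + u (x - Pi.single i 1)) - 2 * (d : ℂ) * u x := by
    have h6 : 2 * (d : ℂ) * u x = ∑ _i : Fin d, 2 * u x := by
      rw [Finset.sum_const, Finset.card_univ, Fintype.card_fin, nsmul_eq_mul]
      ring
    rw [h6, ← Finset.sum_sub_distrib]
    refine Finset.sum_congr rfl fun i _ => ?_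
    ring
  unfold HamY HamT
  rw [h4, h5]
  push_cast
  ring

theorem hamt_c (H : Cls d a m A) (lam : ℝ) (ω : Lt d → ℝ) (u : Lt d → ℂ) (hu : SqS u) (x : Lt d) :
    HamT A lam (fun y => -ω y) u x = ((-1 : ℝ) : ℂ) * HamC A lam ω u x +
      ((2 * (d : ℝ) + ∑' k, a k * m k : ℝ) : ℂ) * u x := by
  rw [hamc_t H lam ω u hu x]
  push_cast
  ring

theorem hamt_neg (A : Lt d → Lt d → ℝ) (lam : ℝ) (ω : Lt d → ℝ) (u : Lt d → ℂ) (x : Lt d) :
    HamT A lam ω (fun y => ((-1 : ℝ) : ℂ) * u y) x = ((-1 : ℝ) : ℂ) * HamT A lam ω u x := by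
  unfold HamT
  have h1 : ∑' y, ((A x y : ℝ) : ℂ) * (((-1 : ℝ) : ℂ) * u y) =
      ((-1 : ℝ) : ℂ) * ∑' y, ((A x y : ℝ) : ℂ) * u y := by
    rw [← tsum_mul_left]
    refine tsum_congr fun y => ?_
    ring
  rw [h1, mul_add, mul_add, Finset.mul_sum]
  congr 1
  · congr 1
    refine Finset.sum_congr rfl fun i _ => ?_
    ring
  · ring

theorem hamc_neg (A : Lt d → Lt d → ℝ) (lam : ℝ) (ω : Lt d → ℝ) (u : Lt d → ℂ) (x : Lt d) :
    HamC A lam ω (fun y => ((-1 : ℝ) : ℂ) * u y) x = ((-1 : ℝ) : ℂ) * HamC A lam ω u x := by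
  unfold HamC
  have h1 : ∑' y, ((A x y : ℝ) : ℂ) * (((-1 : ℝ) : ℂ) * u y - ((-1 : ℝ) : ℂ) * u x) =
      ((-1 : ℝ) : ℂ) * ∑' y, ((A x y : ℝ) : ℂ) * (u y - u x) := by
    rw [← tsum_mul_left]
    refine tsum_congr fun y => ?_
    ring
  rw [h1, mul_add, mul_sub, mul_neg, Finset.mul_sum]
  congr 1
  · congr 2
    refine Finset.sum_congr rfl fun i _ => ?_
    ring
  · ring

/-- existence of spectral measures -/
theorem has_c (H : Cls d a m A) (lam : ℝ) (ω : Lt d → ℝ) (hω : ∀ x, |ω x| ≤ 1) (f : Lt d → ℂ)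
    (hf : SqS f) : ∃ m' : Measure ℝ, IsSp (HamC A lam ω) f m' := by
  have hop := Pool.Agent.H168.Y987.op
  have hK : Rs (Op (kt A)) := (hop _ _ _ (kt_ker H)).2.2.1
  have hω' : ∀ x, |(fun y => -ω y) x| ≤ 1 := fun x => by
    show |-ω x| ≤ 1
    rw [abs_neg]
    exact hω x
  obtain ⟨m', hm, -⟩ := spm_exists (HH (Op (kt A)) lam fun y => -ω y) (HH_rs _ hK lam _).sa
    (lmk f hf)
  have h1 : IsSp (HamT A lam fun y => -ω y) f m' :=
    of_sp _ _ (HH_rs _ hK lam _).sa (hamt_eq H lam _ hω') f hf m' hm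
  exact ⟨_, aff (HamT A lam fun y => -ω y) (HamC A lam ω) (-1) (2 * (d : ℝ) + ∑' k, a k * m k)
    (Or.inr rfl) (fun u hu x => hamt_c H lam ω u hu x) (fun u x => hamc_neg A lam ω u x) f m' h1⟩

/-- pure point in the set `I` -/
def PPi {X : Type} (H : (X → ℂ) → X → ℂ) (I : Set ℝ) : Prop :=
  ∀ (f : X → ℂ) (m : Measure ℝ), SqS f → IsSp H f m →
    ∃ N : Set ℝ, N.Countable ∧ m (I \ N) = 0

theorem ppi_c (H : Cls d a m A) (lam : ℝ) (ω : Lt d → ℝ) (I : Set ℝ)
    (h : PPi (HamT A lam fun y => -ω y) I) :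
    PPi (HamC A lam ω) ((fun E => -1 * E + (2 * (d : ℝ) + ∑' k, a k * m k)) ⁻¹' I) := by
  obtain ⟨b, hb⟩ : ∃ b : ℝ, b = 2 * (d : ℝ) + ∑' k, a k * m k := ⟨_, rfl⟩
  intro f m' hf hm
  have h1 := aff (HamC A lam ω) (HamT A lam fun y => -ω y) (-1) (2 * (d : ℝ) + ∑' k, a k * m k)
    (Or.inr rfl) (fun u hu x => hamc_t H lam ω u hu x) (fun u x => hamt_neg A lam _ u x) f m' hm
  rw [← hb] at h1 ⊢
  obtain ⟨N, hN, hmN⟩ := h f _ hf h1
  refine ⟨(fun E => -1 * E + b) ⁻¹' N, ?_, ?_⟩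
  · have hinj : Function.Injective fun E : ℝ => -1 * E + b := by
      intro x y hxy
      have : -1 * x + b = -1 * y + b := hxy
      linarith
    exact hN.preimage_of_injOn hinj.injOn
  · rw [← map_aff m' (-1) b (Or.inr rfl), ← hmN]
    congr 1
    ext E
    simp only [Set.mem_preimage, Set.mem_diff]
    have h2 : -1 * (-1 * E + b) + b = E := by ring
    rw [h2]

/-! ### the reflected law -/

theorem refl_prod {X : Type} [Countable X] (μ : Measure ℝ) [IsProbabilityMeasure μ]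
    (P : (X → ℝ) → Prop)
    (h : ∀ᵐ ω ∂(Measure.infinitePi fun _ : X => μ.map fun v => -v), P ω) :
    ∀ᵐ ω ∂(Measure.infinitePi fun _ : X => μ), P fun x => -ω x := by
  have h1 := Measure.infinitePi_map_pi (μ := fun _ : X => μ) (f := fun (_ : X) (t : ℝ) => -t)
    (fun _ => measurable_neg)
  have h2 : Measurable fun (ω : X → ℝ) (x : X) => -ω x :=
    measurable_pi_iff.2 fun x => (measurable_pi_apply x).neg
  have h3 : MeasurePreserving (fun (ω : X → ℝ) (x : X) => -ω x)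
      (Measure.infinitePi fun _ : X => μ) (Measure.infinitePi fun _ : X => μ.map fun v => -v) :=
    ⟨h2, h1⟩
  exact h3.quasiMeasurePreserving.ae h

theorem refl_law (μ : Measure ℝ) [IsProbabilityMeasure μ] (D : ℝ) :
    IsProbabilityMeasure (μ.map fun v => -v) ∧
    ((∀ᵐ v ∂μ, |v| ≤ 1) → ∀ᵐ v ∂(μ.map fun v => -v), |v| ≤ 1) ∧
    ((∀ E : Set ℝ, MeasurableSet E → μ E ≤ ENNReal.ofReal D * volume E) →
      ∀ E : Set ℝ, MeasurableSet E → (μ.map fun v => -v) E ≤ ENNReal.ofReal D * volume E) ∧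
    ∀ t : ℝ, (μ.map fun v => -v) (Set.Ioi t) = μ (Set.Iio (-t)) := by
  have hm : Measurable fun v : ℝ => -v := measurable_neg
  refine ⟨Measure.isProbabilityMeasure_map hm.aemeasurable, fun h => ?_, fun h E hE => ?_,
    fun t => ?_⟩
  · rw [ae_map_iff hm.aemeasurable (measurableSet_le (by fun_prop) (by fun_prop))]
    filter_upwards [h] with v hv
    rwa [abs_neg]
  · rw [Measure.map_apply hm hE]
    refine (h _ (hm hE)).trans ?_
    have h1 := (Measure.measurePreserving_neg (volume : Measure ℝ)).measure_preimage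
      hE.nullMeasurableSet
    have h2 : (fun v : ℝ => -v) ⁻¹' E = Neg.neg ⁻¹' E := rfl
    rw [h2, h1]
  · rw [Measure.map_apply hm measurableSet_Ioi]
    congr 1
    ext v
    simp only [Set.mem_preimage, Set.mem_Ioi, Set.mem_Iio]
    constructor <;> intro h <;> linarith

/-- all moments of the hopping -/
theorem Cls.mom (H : Cls d a m A) (hs : ∀ p : ℝ, 0 < p → Summable fun k => a k ^ p * m k) (p : ℝ)
    (hp : 0 < p) : ∃ S : ℝ, ∀ x, (Summable fun y => A x y ^ p) ∧ ∑' y, A x y ^ p ≤ S := by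
  rcases le_total p 1 with h | h
  · exact ⟨_, fun x => H.pw p hp h x⟩
  · obtain ⟨κ, hκ⟩ : ∃ κ, κ = ∑' k, a k * m k := ⟨_, rfl⟩
    have hA : ∀ x y, A x y ≤ κ := by
      intro x y
      rw [hκ]
      exact le_hasSum (H.rs x) y fun z _ => H.nn x z
    have key : ∀ x y, A x y ^ p ≤ κ ^ (p - 1) * A x y := by
      intro x y
      rcases eq_or_lt_of_le (H.nn x y) with h0 | h0
      · rw [← h0, Real.zero_rpow hp.ne', mul_zero]
      · calc A x y ^ p = A x y ^ (p - 1) * A x y := by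
              rw [← Real.rpow_add_one h0.ne']
              congr 1
              ring
          _ ≤ _ := mul_le_mul_of_nonneg_right
              (Real.rpow_le_rpow (H.nn x y) (hA x y) (by linarith)) (H.nn x y)
    refine ⟨κ ^ (p - 1) * κ, fun x => ?_⟩
    have h3 : Summable fun y => κ ^ (p - 1) * A x y := (H.rs x).summable.mul_left _
    have hs1 : Summable fun y => A x y ^ p :=
      Summable.of_nonneg_of_le (fun y => Real.rpow_nonneg (H.nn x y) p) (key x) h3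
    refine ⟨hs1, (hs1.tsum_le_tsum (key x) h3).trans (le_of_eq ?_)⟩
    rw [tsum_mul_left, (H.rs x).tsum_eq, ← hκ]

/-- **localization near the bottom of the spectrum and at strong disorder, for all conductances in
the class** -/
theorem locC (hsig : S_sigY) (htop : S_topY) (d : ℕ) (hd : 1 ≤ d) (a m : ℕ → ℝ)
    (ha : ∀ k, 0 ≤ a k) (hm : ∀ k, 0 ≤ m k)
    (hp : ∀ p : ℝ, 0 < p → Summable fun k => a k ^ p * m k) (D : ℝ) (hD : 0 < D) :
    ∃ (ψ : ℕ → ℝ) (lam1 : ℝ), (∀ n, 0 < ψ n) ∧ 0 < lam1 ∧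
      ∀ A : Lt d → Lt d → ℝ, Cls d a m A →
      ∀ (μ : Measure ℝ) [IsProbabilityMeasure μ], (∀ᵐ v ∂μ, |v| ≤ 1) →
      (∀ E : Set ℝ, MeasurableSet E → μ E ≤ ENNReal.ofReal D * volume E) →
      ((∀ δ : ℝ, 0 < δ → 0 < μ (Set.Iio (-1 + δ))) →
        (∀ N : ℕ, ∃ n : ℕ, N ≤ n ∧ μ (Set.Iio (-1 + 1 / (n : ℝ))) ≤ ENNReal.ofReal (ψ n)) →
        ∀ lam : ℝ, 0 < lam → ∃ E0 : ℝ, -lam < E0 ∧ E0 < 0 ∧
          ∀ᵐ ω ∂(Measure.infinitePi fun _ : Lt d => μ),
            (∀ f : Lt d → ℂ, SqS f → ∃ m : Measure ℝ, IsSp (HamC A lam ω) f m) ∧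
            PPi (HamC A lam ω) (Set.Iio E0) ∧
            ∃ (t : ℝ) (u : Lt d → ℂ), t < E0 ∧ SqS u ∧ (∃ p, u p ≠ 0) ∧
              ∀ p, HamC A lam ω u p = (t : ℂ) * u p) ∧
      (∀ lam : ℝ, lam1 ≤ lam → ∀ᵐ ω ∂(Measure.infinitePi fun _ : Lt d => μ),
        (∀ f : Lt d → ℂ, SqS f → ∃ m : Measure ℝ, IsSp (HamC A lam ω) f m) ∧
        PPi (HamC A lam ω) Set.univ) := by
  obtain ⟨ψ, hψ, he⟩ := edgeY hsig htop d hd a m ha hm hp D hD
  obtain ⟨lam1, hl1, hst⟩ := strongY d a m ha hm D hD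
  refine ⟨ψ, lam1, hψ, hl1, ?_⟩
  intro A hA μ _ hμ hμD
  obtain ⟨r1, r2, r3, r4⟩ := refl_law μ D
  have hμ' := r2 hμ
  have hμD' := r3 hμD
  constructor
  · intro hsup hth lam hlam
    obtain ⟨N, hN⟩ := exists_nat_ge (max lam (1 / lam))
    obtain ⟨n, hn, htail⟩ := hth N
    have hn' : (N : ℝ) ≤ n := by exact_mod_cast hn
    have h1 : lam ≤ n := ((le_max_left _ _).trans hN).trans hn'
    have h3 : 1 / lam ≤ n := ((le_max_right _ _).trans hN).trans hn'
    have h4 : 1 ≤ n * lam := by rwa [div_le_iff₀ hlam] at h3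
    have hn0 : (0 : ℝ) < n := hlam.trans_le h1
    have htail' : (μ.map fun v => -v) (Set.Ioi (1 - 1 / (n : ℝ))) ≤ ENNReal.ofReal (ψ n) := by
      rw [r4]
      have h5 : -(1 - 1 / (n : ℝ)) = -1 + 1 / n := by ring
      rw [h5]
      exact htail
    obtain ⟨h5, h6⟩ := he A hA (μ.map fun v => -v) hμ' hμD' lam n hlam h1 h4 htail'
    have h6' := h6 (fun δ hδ => by
      rw [r4]
      have h7 : -(1 - δ) = -1 + δ := by ring
      rw [h7]
      exact hsup δ hδ)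
    have hn1 : (1 : ℝ) ≤ n := by
      have : 0 < n := by exact_mod_cast hn0
      exact_mod_cast this
    obtain ⟨b, hb⟩ : ∃ b : ℝ, b = 2 * (d : ℝ) + ∑' k, a k * m k := ⟨_, rfl⟩
    rw [← hb] at h5 h6'
    have hE : b - eE b lam n = -(lam * (1 - 1 / (n : ℝ)) + 1 / (2 * (n : ℝ) ^ 2)) := by
      unfold eE
      ring
    refine ⟨b - eE b lam n, ?_, ?_, ?_⟩
    · rw [hE]
      have h8 : 1 / (2 * (n : ℝ) ^ 2) < lam * (1 / n) := by
        rw [mul_one_div, div_lt_div_iff₀ (by positivity) hn0]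
        nlinarith
      linarith
    · rw [hE]
      have h7 : 0 ≤ 1 - 1 / (n : ℝ) := by
        rw [sub_nonneg, div_le_one hn0]
        exact hn1
      have h8 : 0 < 1 / (2 * (n : ℝ) ^ 2) := by positivity
      have h9 : 0 ≤ lam * (1 - 1 / (n : ℝ)) := mul_nonneg hlam.le h7
      linarith
    · filter_upwards [refl_prod μ _ h5, refl_prod μ _ h6', bdd_ae' μ hμ] with ω hω1 hω2 hω3
      refine ⟨fun f hf => has_c hA lam ω hω3 f hf, ?_, ?_⟩
      · have h10 := ppi_c hA lam ω (Set.Ioi (eE b lam n)) hω1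
        rw [← hb] at h10
        have h11 : (fun E => -1 * E + b) ⁻¹' Set.Ioi (eE b lam n) = Set.Iio (b - eE b lam n) := by
          ext E
          simp only [Set.mem_preimage, Set.mem_Ioi, Set.mem_Iio]
          constructor <;> intro h <;> linarith
        rw [h11] at h10
        exact h10
      · obtain ⟨t, u, g1, g2, g3, g4⟩ := hω2
        refine ⟨b - t, u, by linarith, g2, g3, fun p => ?_⟩
        rw [hamc_t hA lam ω u g2 p, g4, ← hb]
        push_cast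
        ring
  · intro lam hlam
    have h5 := hst A hA (μ.map fun v => -v) hμ' hμD' lam hlam
    filter_upwards [refl_prod μ _ h5, bdd_ae' μ hμ] with ω hω1 hω3
    refine ⟨fun f hf => has_c hA lam ω hω3 f hf, ?_⟩
    have h10 := ppi_c hA lam ω Set.univ (fun f m' hf hm' => by
      obtain ⟨N, hN, hmN⟩ := hω1 f m' hf hm'
      exact ⟨N, hN, by rwa [← Set.compl_eq_univ_sdiff]⟩)
    rwa [Set.preimage_univ] at h10

end Pool.Agent.H121.MY
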