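import Pool.Agent.H121.MY.Cls
import Pool.Agent.H121.ME.Asm
import Pool.Agent.H168.Y987.Op
import Pool.Agent.H168.Y987.Kact

/-! Project MY: localization near the band edge and at strong disorder, for the operator
`adjacency + A + lam ω` on `ℤ^d`. Compare `Pool/Agent/H121/ME/Asm.lean`. -/

set_option autoImplicit false
set_option linter.unusedSectionVars false

open scoped BigOperators InnerProductSpace Topology ENNReal
open Filter MeasureTheory

namespace Pool.Agent.H121.MY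

open Pool.Agent.Y662.TR (LL Cf Mw dv hu lmk ll_ext ll_summable clp_eq Mw_apply dv_apply)
open Pool.Agent.TH369.AN (Rz)
open Pool.Agent.TH369.MU (SpM ep zk spm_exists)
open Pool.Agent.H987.Z (Rs SqS IsSp sp_of of_sp)
open Pool.Agent.H987.Y
open Pool.Agent.H121.Z987 (wt HH HH_apply HH_rs)
open Pool.Agent.H121.ME (Dec dec_top locW atom_eig we we_cont we_nonneg we_le we_pos wt_pos wt_cont eE)

variable {d : ℕ}

open Classical in
/-- the adjacency kernel of `ℤ^d` -/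
noncomputable def adj (d : ℕ) (x y : Lt d) : ℝ :=
  ∑ i : Fin d, ((if y = x + Pi.single i 1 then 1 else 0) + (if y = x - Pi.single i 1 then 1 else 0))

theorem adj_nn (x y : Lt d) : 0 ≤ adj d x y := by
  classical
  unfold adj
  refine Finset.sum_nonneg fun i _ => add_nonneg ?_ ?_ <;> split_ifs <;> norm_num

theorem adj_sy (x y : Lt d) : adj d x y = adj d y x := by
  classical
  unfold adj
  refine Finset.sum_congr rfl fun i _ => ?_
  rw [add_comm]
  have h1 : (y = x - Pi.single i 1) ↔ (x = y + Pi.single i 1) := by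
    constructor
    · intro h; rw [h]; abel
    · intro h; rw [h]; abel
  have h2 : (y = x + Pi.single i 1) ↔ (x = y - Pi.single i 1) := by
    constructor
    · intro h; rw [h]; abel
    · intro h; rw [h]; abel
  simp only [h1, h2]

theorem adj_hasSum (x : Lt d) : HasSum (fun y => adj d x y) (2 * (d : ℝ)) := by
  classical
  have h : HasSum (fun y => ∑ i : Fin d, ((if y = x + Pi.single i 1 then (1 : ℝ) else 0) +
      (if y = x - Pi.single i 1 then 1 else 0))) (∑ _i : Fin d, ((1 : ℝ) + 1)) :=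
    hasSum_sum fun i _ => (hasSum_ite_eq _ (1 : ℝ)).add (hasSum_ite_eq _ (1 : ℝ))
  have h2 : (∑ _i : Fin d, ((1 : ℝ) + 1)) = 2 * (d : ℝ) := by
    rw [Finset.sum_const, Finset.card_univ, Fintype.card_fin, nsmul_eq_mul]
    ring
  rw [h2] at h
  refine h.congr_fun fun y => ?_
  unfold adj
  refine Finset.sum_congr rfl fun i _ => ?_
  congr

theorem adj_int (x y : Lt d) : adj d x y = 0 ∨ 1 ≤ adj d x y := by
  classical
  have e : ∃ n : ℕ, adj d x y = n := by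
    refine ⟨∑ i : Fin d, ((if y = x + Pi.single i 1 then 1 else 0) +
      (if y = x - Pi.single i 1 then 1 else 0)), ?_⟩
    unfold adj
    push_cast
    refine Finset.sum_congr rfl fun i _ => ?_
    congr
  obtain ⟨n, hn⟩ := e
  rw [hn]
  rcases Nat.eq_zero_or_pos n with h | h
  · left
    rw [h, Nat.cast_zero]
  · right
    exact_mod_cast h

theorem adj_pow (x y : Lt d) (s : ℝ) (hs : 0 < s) (hs1 : s ≤ 1) : adj d x y ^ s ≤ adj d x y := by
  rcases adj_int x y with h | h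
  · rw [h, Real.zero_rpow hs.ne']
  · calc adj d x y ^ s ≤ adj d x y ^ (1 : ℝ) := Real.rpow_le_rpow_of_exponent_le h hs1
      _ = adj d x y := Real.rpow_one _

/-- the adjacency kernel is a network -/
theorem adj_rng (x y : Lt d) (h : adj d x y ≠ 0) (i : Fin d) : |x i - y i| ≤ 1 := by
  classical
  unfold adj at h
  obtain ⟨j, -, hj⟩ := Finset.exists_ne_zero_of_sum_ne_zero h
  by_cases h1 : y = x + Pi.single j 1
  · rw [h1, Pi.add_apply]
    by_cases hi : i = j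
    · subst hi
      rw [Pi.single_eq_same]
      have : x i - (x i + 1) = -1 := by ring
      rw [this]
      norm_num
    · rw [Pi.single_eq_of_ne hi]
      simp
  · by_cases h2 : y = x - Pi.single j 1
    · rw [h2, Pi.sub_apply]
      by_cases hi : i = j
      · subst hi
        rw [Pi.single_eq_same]
        have : x i - (x i - 1) = 1 := by ring
        rw [this]
        norm_num
      · rw [Pi.single_eq_of_ne hi]
        simp
    · rw [if_neg h1, if_neg h2] at hj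
      exact absurd (by norm_num) hj

/-- the kernel of the kinetic energy -/
noncomputable def kt (A : Lt d → Lt d → ℝ) (x y : Lt d) : ℝ := adj d x y + A x y

variable {a m : ℕ → ℝ} {A : Lt d → Lt d → ℝ}

theorem kt_nn (H : Cls d a m A) (x y : Lt d) : 0 ≤ kt A x y := add_nonneg (adj_nn x y) (H.nn x y)

theorem kt_hasSum (H : Cls d a m A) (x : Lt d) :
    HasSum (fun y => kt A x y) (2 * (d : ℝ) + ∑' k, a k * m k) := (adj_hasSum x).add (H.rs x)

theorem kt_ker (H : Cls d a m A) : Ker (2 * (d : ℝ) + ∑' k, a k * m k) (kt A) where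
  h0 := by
    rw [← (kt_hasSum H 0).tsum_eq]
    exact tsum_nonneg fun y => kt_nn H 0 y
  sy := fun x y => by unfold kt; rw [adj_sy, H.sy]
  sm := fun x => by
    have h1 : ∀ y, |kt A x y| = kt A x y := fun y => abs_of_nonneg (kt_nn H x y)
    simp only [h1]
    exact (kt_hasSum H x).summable
  le := fun x => by
    have h1 : ∀ y, |kt A x y| = kt A x y := fun y => abs_of_nonneg (kt_nn H x y)
    simp only [h1]
    exact (kt_hasSum H x).tsum_eq.le

theorem kt_pow (H : Cls d a m A) (s : ℝ) (hs : 0 < s) (hs1 : s ≤ 1) (x : Lt d) :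
    (Summable fun y => ‖Op (kt A) (dv y) x‖ ^ s) ∧
      ∑' y, ‖Op (kt A) (dv y) x‖ ^ s ≤ 2 * (d : ℝ) + ∑' k, a k ^ s * m k := by
  have e1 : ∀ y, ‖Op (kt A) (dv y) x‖ ^ s ≤ adj d x y + A x y ^ s := by
    intro y
    rw [Op_dv Pool.Agent.H168.Y987.op (kt_ker H), Complex.norm_real, Real.norm_eq_abs,
      abs_of_nonneg (kt_nn H x y)]
    unfold kt
    refine (Real.rpow_add_le_add_rpow (adj_nn x y) (H.nn x y) hs.le hs1).trans ?_
    exact add_le_add (adj_pow x y s hs hs1) le_rfl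
  have e2 := (adj_hasSum x).summable.add (H.pw s hs hs1 x).1
  have e3 : Summable fun y => ‖Op (kt A) (dv y) x‖ ^ s :=
    Summable.of_nonneg_of_le (fun y => by positivity) e1 e2
  refine ⟨e3, (e3.tsum_le_tsum e1 e2).trans ?_⟩
  rw [(adj_hasSum x).summable.tsum_add (H.pw s hs hs1 x).1, (adj_hasSum x).tsum_eq]
  exact add_le_add le_rfl (H.pw s hs hs1 x).2

theorem kt_ap (H : Cls d a m A) (δ : ℝ) (hδ : 0 < δ) : ∃ (R : ℕ) (B : Lt d → Lt d → ℝ),
    (∀ x y, B x y ≠ 0 → ∀ i, |x i - y i| ≤ (R : ℤ)) ∧ Ker δ fun x y => kt A x y - B x y := by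
  obtain ⟨N, R, h, B, -, hB, hk⟩ := H.ap δ hδ
  refine ⟨max R 1, fun x y => adj d x y + B x y, fun x y hxy i => ?_, hk.congr fun x y => ?_⟩
  · by_cases h1 : adj d x y = 0
    · refine (hB.rng x y (fun h2 => hxy ?_) i).trans ?_
      · show adj d x y + B x y = 0
        rw [h1, h2, add_zero]
      · exact_mod_cast le_max_left R 1
    · refine (adj_rng x y h1 i).trans ?_
      exact_mod_cast le_max_right R 1
  · unfold kt
    ring

/-- the Hamiltonian `adjacency + A + lam ω` -/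
noncomputable def HamT {d : ℕ} (A : Lt d → Lt d → ℝ) (lam : ℝ) (ω : Lt d → ℝ) (u : Lt d → ℂ)
    (x : Lt d) : ℂ :=
  ∑ i : Fin d, (u (x + Pi.single i 1) + u (x - Pi.single i 1)) +
    ∑' y, ((A x y : ℝ) : ℂ) * u y + ((lam * ω x : ℝ) : ℂ) * u x

theorem adj_act (u : Lt d → ℂ) (x : Lt d) : HasSum (fun y => ((adj d x y : ℝ) : ℂ) * u y)
    (∑ i : Fin d, (u (x + Pi.single i 1) + u (x - Pi.single i 1))) := by
  classical
  have h : HasSum (fun y => ∑ i : Fin d, ((if y = x + Pi.single i 1 then u (x + Pi.single i 1)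
      else 0) + (if y = x - Pi.single i 1 then u (x - Pi.single i 1) else 0)))
      (∑ i : Fin d, (u (x + Pi.single i 1) + u (x - Pi.single i 1))) :=
    hasSum_sum fun i _ => (hasSum_ite_eq _ _).add (hasSum_ite_eq _ _)
  refine h.congr_fun fun y => ?_
  unfold adj
  rw [Complex.ofReal_sum, Finset.sum_mul]
  refine Finset.sum_congr rfl fun i _ => ?_
  by_cases h1 : y = x + Pi.single i 1 <;> by_cases h2 : y = x - Pi.single i 1
  · rw [if_pos h1, if_pos h2, if_pos h1, if_pos h2, ← h1, ← h2]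
    push_cast
    ring
  · rw [if_pos h1, if_neg h2, if_pos h1, if_neg h2, ← h1]
    push_cast
    ring
  · rw [if_neg h1, if_pos h2, if_neg h1, if_pos h2, ← h2]
    push_cast
    ring
  · rw [if_neg h1, if_neg h2, if_neg h1, if_neg h2]
    push_cast
    ring

/-- `HamT` is the operator `HH` -/
theorem hamt_eq (H : Cls d a m A) (lam : ℝ) (ω : Lt d → ℝ) (hω : ∀ x, |ω x| ≤ 1)
    (u : LL (Lt d)) (p : Lt d) :
    HamT A lam ω (fun y => u y) p = HH (Op (kt A)) lam ω u p := by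
  have hop := Pool.Agent.H168.Y987.op
  rw [HH_apply, ((hop _ _ _ (kt_ker H)).1 u p).2, clp_eq]
  · have h1 := adj_act (fun y => u y) p
    have h2 := ((hop _ _ _ H.ker).1 u p).1
    have h3 : ∑' y, ((kt A p y : ℝ) : ℂ) * u y =
        ∑ i : Fin d, (u (p + Pi.single i 1) + u (p - Pi.single i 1)) +
          ∑' y, ((A p y : ℝ) : ℂ) * u y := by
      rw [← (h1.add h2.hasSum).tsum_eq]
      refine tsum_congr fun y => ?_
      unfold kt
      push_cast
      ring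
    rw [h3]
    rfl
  · rw [abs_mul]
    exact mul_le_of_le_one_right (abs_nonneg _) (hω _)

/-- pure point above `e` -/
def PPa {X : Type} (H : (X → ℂ) → X → ℂ) (e : ℝ) : Prop :=
  ∀ (f : X → ℂ) (m : Measure ℝ), SqS f → IsSp H f m →
    ∃ N : Set ℝ, N.Countable ∧ m (Set.Ioi e \ N) = 0

/-- existence of an eigenvalue above `e` -/
def EXa {X : Type} (H : (X → ℂ) → X → ℂ) (e : ℝ) : Prop :=
  ∃ (t : ℝ) (u : X → ℂ), e < t ∧ SqS u ∧ (∃ p, u p ≠ 0) ∧ ∀ p, H u p = (t : ℂ) * u p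

theorem bdd_ae' {X : Type} [Countable X] (μ : Measure ℝ) [IsProbabilityMeasure μ]
    (hμ : ∀ᵐ v ∂μ, |v| ≤ 1) :
    ∀ᵐ ω ∂(Measure.infinitePi fun _ : X => μ), ∀ g, |ω g| ≤ 1 := by
  rw [ae_all_iff]
  intro g
  have h1 := (measurePreserving_eval_infinitePi (fun _ : X => μ)
    g).quasiMeasurePreserving
  exact h1.ae hμ

/-- the choice of the parameters, for one `n` -/
theorem paramsY (hsig : S_sigY) (a m : ℕ → ℝ) (ha : ∀ k, 0 ≤ a k) (hm : ∀ k, 0 ≤ m k)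
    (hp : ∀ p : ℝ, 0 < p → Summable fun k => a k ^ p * m k) (d : ℕ) (D : ℝ) (hD : 0 < D) (n : ℕ)
    (hn : 1 ≤ n) : ∃ s κ ε : ℝ, 0 < s ∧ s < 1 ∧ 0 < κ ∧ 0 < ε ∧ ε ≤ 1 ∧
      3 * ε ^ (1 - s) * (2 * D / (1 - s) + 1) ≤ κ ∧
      2 * (d : ℝ) + ∑' k, a k ^ s * m k <
        (2 * d + ∑' k, a k * m k + 1 / (2 * (n : ℝ) ^ 2)) ^ s - κ := by
  have hn0 : (0 : ℝ) < n := by exact_mod_cast hn
  obtain ⟨x, hx⟩ : ∃ x : ℝ, x = 2 * d + ∑' k, a k * m k + 1 / (2 * (n : ℝ) ^ 2) := ⟨_, rfl⟩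
  rw [← hx]
  obtain ⟨s, hs0, hs1, hs⟩ := hsig a m ha hm hp (2 * d) x (by positivity) (by
    rw [hx]
    have : (0 : ℝ) < 1 / (2 * (n : ℝ) ^ 2) := by positivity
    linarith)
  obtain ⟨S, hS⟩ : ∃ S, S = 2 * (d : ℝ) + ∑' k, a k ^ s * m k := ⟨_, rfl⟩
  rw [← hS] at hs
  obtain ⟨κ, hκ⟩ : ∃ κ, κ = (x ^ s - S) / 2 := ⟨_, rfl⟩
  have hκ0 : 0 < κ := by rw [hκ]; linarith
  obtain ⟨B, hB⟩ : ∃ B, B = 3 * (2 * D / (1 - s) + 1) := ⟨_, rfl⟩
  have hs1' : 0 < 1 - s := by linarith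
  have hB0 : 0 < B := by rw [hB]; positivity
  obtain ⟨ε, hε⟩ : ∃ ε : ℝ, ε = min 1 ((κ / B) ^ (1 / (1 - s))) := ⟨_, rfl⟩
  have hε0 : 0 < ε := by rw [hε]; exact lt_min one_pos (by positivity)
  refine ⟨s, κ, ε, hs0, hs1, hκ0, hε0, ?_, ?_, ?_⟩
  · rw [hε]; exact min_le_left _ _
  · have h5 : ε ^ (1 - s) ≤ κ / B := by
      calc ε ^ (1 - s) ≤ ((κ / B) ^ (1 / (1 - s))) ^ (1 - s) := by
            apply Real.rpow_le_rpow hε0.le _ hs1'.le
            rw [hε]; exact min_le_right _ _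
        _ = κ / B := by
            rw [← Real.rpow_mul (by positivity), one_div_mul_cancel hs1'.ne', Real.rpow_one]
    calc 3 * ε ^ (1 - s) * (2 * D / (1 - s) + 1) = ε ^ (1 - s) * B := by rw [hB]; ring
      _ ≤ κ / B * B := by gcongr
      _ = κ := by field_simp
  · rw [← hS, hκ]
    linarith

/-- **localization near the upper band edge** -/
theorem edgeY (hsig : S_sigY) (htop : S_topY) (d : ℕ) (hd : 1 ≤ d) (a m : ℕ → ℝ)
    (ha : ∀ k, 0 ≤ a k) (hm : ∀ k, 0 ≤ m k)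
    (hp : ∀ p : ℝ, 0 < p → Summable fun k => a k ^ p * m k) (D : ℝ) (hD : 0 < D) :
    ∃ ψ : ℕ → ℝ, (∀ n, 0 < ψ n) ∧
      ∀ A : Lt d → Lt d → ℝ, Cls d a m A →
      ∀ (μ : Measure ℝ) [IsProbabilityMeasure μ], (∀ᵐ v ∂μ, |v| ≤ 1) →
      (∀ E : Set ℝ, MeasurableSet E → μ E ≤ ENNReal.ofReal D * volume E) →
      ∀ (lam : ℝ) (n : ℕ), 0 < lam → lam ≤ n → 1 ≤ n * lam →
      μ (Set.Ioi (1 - 1 / n)) ≤ ENNReal.ofReal (ψ n) →
      (∀ᵐ ω ∂(Measure.infinitePi fun _ : Lt d => μ),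
        PPa (HamT A lam ω) (eE (2 * d + ∑' k, a k * m k) lam n)) ∧
      ((∀ δ : ℝ, 0 < δ → 0 < μ (Set.Ioi (1 - δ))) →
        ∀ᵐ ω ∂(Measure.infinitePi fun _ : Lt d => μ),
          EXa (HamT A lam ω) (eE (2 * d + ∑' k, a k * m k) lam n)) := by
  have hpar : ∀ n : ℕ, ∃ s κ ε : ℝ, 0 < s ∧ s < 1 ∧ 0 < κ ∧ 0 < ε ∧ ε ≤ 1 ∧
      (1 ≤ n → 3 * ε ^ (1 - s) * (2 * D / (1 - s) + 1) ≤ κ ∧
      2 * (d : ℝ) + ∑' k, a k ^ s * m k <
        (2 * d + ∑' k, a k * m k + 1 / (2 * (n : ℝ) ^ 2)) ^ s - κ) := by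
    intro n
    by_cases hn : 1 ≤ n
    · obtain ⟨s, κ, ε, h1, h2, h4, h5, h6, h7, h8⟩ := paramsY hsig a m ha hm hp d D hD n hn
      exact ⟨s, κ, ε, h1, h2, h4, h5, h6, fun _ => ⟨h7, h8⟩⟩
    · exact ⟨1 / 2, 1, 1, by norm_num, by norm_num, by norm_num, by norm_num,
        le_rfl, fun h => absurd h hn⟩
  choose s κ ε hs0 hs1 hκ hε0 hε1 hpar' using hpar
  refine ⟨ε, hε0, ?_⟩
  intro A hA μ _ hμ hμD lam n hlam hln hnl htail
  have hn1 : 1 ≤ n := by
    rcases Nat.eq_zero_or_pos n with h | h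
    · rw [h] at hln
      simp at hln
      linarith
    · exact h
  have hn0 : (0 : ℝ) < n := by exact_mod_cast hn1
  obtain ⟨hp1, hp2⟩ := hpar' n hn1
  have hcn : 0 ≤ ∑' k, a k * m k := tsum_nonneg fun k => mul_nonneg (ha k) (hm k)
  obtain ⟨M, hM⟩ : ∃ M : ℝ, M = 2 * d + ∑' k, a k * m k := ⟨_, rfl⟩
  have hM0 : 0 ≤ M := by rw [hM]; positivity
  rw [← hM] at hp2 ⊢
  obtain ⟨e, he⟩ : ∃ e, e = eE M lam n := ⟨_, rfl⟩
  rw [← he]
  obtain ⟨b, hb⟩ : ∃ b : ℝ, b = M + 1 / (2 * (n : ℝ) ^ 2) := ⟨_, rfl⟩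
  rw [← hb] at hp2
  have hb0 : 0 < b := by
    rw [hb]
    positivity
  have hea : e = b + lam * (1 - 1 / n) := by
    rw [he, hb]
    unfold eE
    ring
  obtain ⟨S, hS⟩ : ∃ S, S = 2 * (d : ℝ) + ∑' k, a k ^ (s n) * m k := ⟨_, rfl⟩
  rw [← hS] at hp2
  have hS0 : 0 ≤ S := by
    rw [hS]
    have : 0 ≤ ∑' k, a k ^ (s n) * m k :=
      tsum_nonneg fun k => mul_nonneg (Real.rpow_nonneg (ha k) _) (hm k)
    positivity
  have hops1 := kt_pow hA (s n) (hs0 n) (hs1 n).le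
  rw [← hS] at hops1
  have hop := Pool.Agent.H168.Y987.op
  have hK : Rs (Op (kt A)) := (hop _ _ _ (kt_ker hA)).2.2.1
  -- the constant of the decoupling inequality
  obtain ⟨cc, hcc⟩ : ∃ cc : ℝ, cc = (b / lam) ^ (s n) - (1 - (1 - 1 / (n : ℝ))) ^ (s n) * κ n :=
    ⟨_, rfl⟩
  have hccl : b ^ (s n) - κ n ≤ cc * lam ^ (s n) := by
    have h1 : (1 - (1 - 1 / (n : ℝ))) = 1 / n := by ring
    rw [hcc, h1, sub_mul, Real.div_rpow hb0.le hlam.le, div_mul_cancel₀ _ (by positivity)]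
    have h2 : (1 / (n : ℝ)) ^ (s n) * κ n * lam ^ (s n) = (lam / n) ^ (s n) * κ n := by
      rw [Real.div_rpow hlam.le hn0.le, Real.div_rpow zero_le_one hn0.le, Real.one_rpow]
      ring
    rw [h2]
    have h3 : (lam / n) ^ (s n) ≤ 1 := by
      apply Real.rpow_le_one (by positivity) _ (hs0 n).le
      rw [div_le_one hn0]
      exact hln
    have h4 := hκ n
    nlinarith
  have hcc1 : Real.exp 0 * S < cc * lam ^ (s n) := by
    rw [Real.exp_zero, one_mul]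
    exact lt_of_lt_of_le hp2 hccl
  have hcc0 : 0 < cc * lam ^ (s n) := lt_of_le_of_lt (by positivity) hcc1
  have htl : ∀ β : ℂ, β.im ≠ 0 →
      ∫⁻ v in Set.Ioi (1 - 1 / (n : ℝ)), ENNReal.ofReal (‖(v : ℂ) - β‖ ^ (-s n)) ∂μ ≤
        ENNReal.ofReal (κ n) * ∫⁻ v : ℝ, ENNReal.ofReal (‖(v : ℂ) - β‖ ^ (-s n)) ∂μ := by
    intro β hβ
    refine (Pool.Agent.H354.ME.s_tail (s n) D (hs0 n) (hs1 n) hD μ hμ hμD _ (ε n) (hε0 n) (hε1 n)
      htail β hβ).trans ?_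
    gcongr
  have hdec : ∀ z : ℂ, 0 < z.im → z.re ∈ Set.Ioi e → Dec μ lam (s n) cc z := by
    intro z _ hz
    rw [hcc]
    refine dec_top μ hμ (s n) _ (κ n) lam b (hs0 n) (hs1 n) ?_ (hκ n).le hlam hb0.le htl z ?_
    · have : (0 : ℝ) < 1 / n := by positivity
      linarith
    · have hz' : e < z.re := hz
      linarith
  have hloc := locW Pool.Agent.H253.ME.wienA Pool.Agent.H122.ME.wienB Pool.Agent.H962.ME.simple
    (we e) (we_cont e) (we_nonneg e) (we_le e) (Set.Ioi e) (fun E hE => (we_pos e E).1 hE)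
    (Op (kt A)) hK
    lam hlam (s n) cc S 0 D (hs0 n) (hs1 n) le_rfl hcc0 hcc1 hS0 hD hops1 (fun _ => 0)
    (fun _ _ _ => Nat.zero_le _) μ hμ hμD hdec
  have hset : {E | 0 < we e E} = Set.Ioi e := by
    ext E
    exact we_pos e E
  rw [hset] at hloc
  have hpos : 0 < 1 / (2 * (n : ℝ) ^ 2) := by positivity
  constructor
  · filter_upwards [hloc, bdd_ae' μ hμ] with ω hω hb'
    obtain ⟨h1, -⟩ := hω
    exact fun f m hf hm => h1 _ m (sp_of _ _ (HH_rs _ hK lam ω).sa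
      (hamt_eq hA lam ω hb') f hf m hm)
  · intro hsup
    have htop' := htop d (kt A) _ M hd (kt_ker hA) (fun x => by rw [hM]; exact (kt_hasSum hA x).tsum_eq)
      (kt_ap hA) μ hμ hsup lam hlam e (by
      rw [hea, hb]
      have h5 : 1 / (2 * (n : ℝ) ^ 2) < lam * (1 / n) := by
        rw [mul_one_div, div_lt_div_iff₀ (by positivity) hn0]
        nlinarith
      linarith)
    have he0 : 0 ≤ e := by
      rw [hea]
      have h1 : 0 ≤ 1 - 1 / (n : ℝ) := by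
        rw [sub_nonneg, div_le_one hn0]
        exact_mod_cast hn1
      positivity
    filter_upwards [hloc, bdd_ae' μ hμ, htop'] with ω hω hb' ht
    obtain ⟨h1, -⟩ := hω
    obtain ⟨v, hv⟩ := ht
    obtain ⟨y, hy⟩ := Pool.Agent.H962.ME.topA _ (HH (Op (kt A)) lam ω) (HH_rs _ hK lam ω).sa e v
      he0 hv
    obtain ⟨m', hm', hme⟩ := atom_eig (HH (Op (kt A)) lam ω) (HH_rs _ hK lam ω).sa (dv y)
    obtain ⟨N, hN, hmN⟩ := h1 _ m' hm'
    have hm0 := hy m' hm'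
    have h3 : m' (Set.Ioi e ∩ N) ≠ 0 := by
      intro h
      apply hm0
      rw [← Set.inter_union_sdiff (Set.Ioi e) N]
      exact measure_union_null h hmN
    obtain ⟨t, ht, htm⟩ : ∃ t ∈ Set.Ioi e ∩ N, m' {t} ≠ 0 := by
      by_contra hcon
      push Not at hcon
      apply h3
      have hc : (Set.Ioi e ∩ N).Countable := hN.mono Set.inter_subset_right
      rw [← Set.biUnion_of_singleton (Set.Ioi e ∩ N)]
      exact (measure_biUnion_null_iff hc).2 hcon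
    obtain ⟨ψ, hψ0, hψ⟩ := hme t htm
    refine ⟨t, fun p => ψ p, ht.1, ll_summable ψ, ?_, fun p => ?_⟩
    · by_contra hcon
      push Not at hcon
      exact hψ0 (ll_ext hcon)
    · rw [hamt_eq hA lam ω hb', hψ]
      rfl

/-- **strong disorder** -/
theorem strongY (d : ℕ) (a m : ℕ → ℝ) (ha : ∀ k, 0 ≤ a k) (hm : ∀ k, 0 ≤ m k) (D : ℝ) (hD : 0 < D) :
    ∃ lam1 : ℝ, 0 < lam1 ∧ ∀ A : Lt d → Lt d → ℝ, Cls d a m A →
      ∀ (μ : Measure ℝ) [IsProbabilityMeasure μ], (∀ᵐ v ∂μ, |v| ≤ 1) →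
      (∀ E : Set ℝ, MeasurableSet E → μ E ≤ ENNReal.ofReal D * volume E) →
      ∀ lam : ℝ, lam1 ≤ lam →
      ∀ᵐ ω ∂(Measure.infinitePi fun _ : Lt d => μ),
        ∀ (f : Lt d → ℂ) (m : Measure ℝ), SqS f → IsSp (HamT A lam ω) f m →
          ∃ N : Set ℝ, N.Countable ∧ m Nᶜ = 0 := by
  obtain ⟨s, hs⟩ : ∃ s : ℝ, s = 1 / 2 := ⟨_, rfl⟩
  have hs0 : 0 < s := by rw [hs]; norm_num
  have hs1 : s < 1 := by rw [hs]; norm_num
  obtain ⟨c0, hc0', hdec⟩ := Pool.Agent.H122.Z987.dec s D hs0 hs1 hD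
  obtain ⟨S, hS⟩ : ∃ S, S = 2 * (d : ℝ) + ∑' k, a k ^ s * m k := ⟨_, rfl⟩
  have hS0 : 0 ≤ S := by
    rw [hS]
    have : 0 ≤ ∑' k, a k ^ s * m k :=
      tsum_nonneg fun k => mul_nonneg (Real.rpow_nonneg (ha k) _) (hm k)
    positivity
  refine ⟨((Real.exp 0 * S + 1) / c0) ^ (1 / s), by positivity, ?_⟩
  intro A hA μ _ hμ hμD lam hlam
  have hops1 := kt_pow hA s hs0 hs1.le
  rw [← hS] at hops1
  have hop := Pool.Agent.H168.Y987.op
  have hK : Rs (Op (kt A)) := (hop _ _ _ (kt_ker hA)).2.2.1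
  have hlam0 : 0 < lam := lt_of_lt_of_le (by positivity) hlam
  have hcl : Real.exp 0 * S + 1 ≤ c0 * lam ^ s := by
    have h5 : (Real.exp 0 * S + 1) / c0 ≤ lam ^ s := by
      calc (Real.exp 0 * S + 1) / c0 = (((Real.exp 0 * S + 1) / c0) ^ (1 / s)) ^ s := by
            rw [← Real.rpow_mul (by positivity), one_div_mul_cancel hs0.ne', Real.rpow_one]
        _ ≤ lam ^ s := Real.rpow_le_rpow (by positivity) hlam hs0.le
    rw [div_le_iff₀ hc0'] at h5
    linarith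
  have hcc0 : 0 < c0 * lam ^ s := by positivity
  have hloc := locW Pool.Agent.H253.ME.wienA Pool.Agent.H122.ME.wienB Pool.Agent.H962.ME.simple
    wt wt_cont (fun E => (wt_pos E).le) (fun E => le_rfl) Set.univ (fun E _ => Set.mem_univ _)
    (Op (kt A)) hK
    lam hlam0 s c0 S 0 D hs0 hs1 le_rfl hcc0 (by linarith) hS0 hD hops1 (fun _ => 0)
    (fun _ _ _ => Nat.zero_le _) μ hμ hμD (fun z _ _ β hβ => hdec μ hμ hμD _ β hβ)
  filter_upwards [hloc, bdd_ae' μ hμ] with ω hω hb f m hf hm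
  obtain ⟨h1, -⟩ := hω
  obtain ⟨N, hN, hmN⟩ := h1 _ m (sp_of _ _ (HH_rs _ hK lam ω).sa (hamt_eq hA lam ω hb) f hf m hm)
  refine ⟨N, hN, ?_⟩
  convert hmN using 2
  ext E
  simp [wt_pos E]

end Pool.Agent.H121.MY
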