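import Pool.Agent.H121.MY.It
import Pool.Agent.H582.Y987.Pow

/-! Project MY: the class of conductances, the affine change of the energy, the Hamiltonian. -/

set_option autoImplicit false
set_option linter.unusedSectionVars false

open scoped BigOperators InnerProductSpace Topology
open Filter MeasureTheory

namespace Pool.Agent.H121.MY

open Pool.Agent.Y662.TR (LL Cf Mw dv hu hu_nonneg clp clp_eq clp_abs lmk ll_inner ll_ext
  ll_summable dv_apply sub_coord smul_coord Mw_apply add_coord)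
open Pool.Agent.H987.Y
open Pool.Agent.H987.Z (SqS IsSp)

/-! ### affine changes of the energy -/

section aff

variable {X : Type}

theorem aff (H H' : (X → ℂ) → X → ℂ) (σ b : ℝ) (hσ : σ = 1 ∨ σ = -1)
    (hH : ∀ u : X → ℂ, SqS u → ∀ x, H u x = (σ : ℂ) * H' u x + (b : ℂ) * u x)
    (hh : ∀ u : X → ℂ, ∀ x, H' (fun y => (σ : ℂ) * u y) x = (σ : ℂ) * H' u x)
    (f : X → ℂ) (m : Measure ℝ) (hm : IsSp H f m) : IsSp H' f (m.map fun E => σ * (E - b)) := by
  have hσ2 : (σ : ℂ) * (σ : ℂ) = 1 := by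
    rcases hσ with h | h <;> rw [h] <;> norm_num
  have hσ0 : (σ : ℂ) ≠ 0 := fun h => by rw [h, mul_zero] at hσ2; exact zero_ne_one hσ2
  have hmeas : Measurable fun E : ℝ => σ * (E - b) := by fun_prop
  obtain ⟨h1, h2⟩ := hm
  refine ⟨Measure.isFiniteMeasure_map m _, fun z hz => ?_⟩
  have hz' : ((σ : ℂ) * z + b).im ≠ 0 := by
    rcases hσ with h | h <;> rw [h] <;> simpa using hz
  obtain ⟨u, hu, hu1, hu2⟩ := h2 _ hz'
  have hsq : SqS fun x => (σ : ℂ) * u x := by
    have h3 : ∀ x, ‖(σ : ℂ) * u x‖ ^ 2 = ‖u x‖ ^ 2 := by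
      intro x
      rcases hσ with h | h <;> rw [h] <;> simp
    unfold SqS at hu ⊢
    simpa only [h3] using hu
  refine ⟨_, hsq, fun x => ?_, ?_⟩
  · rw [hh]
    have h3 := hu1 x
    rw [hH u hu] at h3
    linear_combination h3
  · rw [integral_map hmeas.aemeasurable]
    · have h3 : ∀ E : ℝ, (((σ * (E - b) : ℝ) : ℂ) - z)⁻¹ =
          (σ : ℂ) * ((E : ℂ) - ((σ : ℂ) * z + b))⁻¹ := by
        intro E
        have h4 : (((σ * (E - b) : ℝ) : ℂ) - z) = (σ : ℂ) * ((E : ℂ) - ((σ : ℂ) * z + b)) := by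
          push_cast
          linear_combination z * hσ2
        rw [h4, mul_inv]
        congr 1
        exact inv_eq_of_mul_eq_one_left hσ2
      simp only [h3]
      rw [integral_const_mul, hu2, ← tsum_mul_left]
      refine tsum_congr fun x => ?_
      ring
    · refine Measurable.aestronglyMeasurable ?_
      fun_prop

/-- the inverse change -/
theorem map_aff (m : Measure ℝ) (σ b : ℝ) (hσ : σ = 1 ∨ σ = -1) (S : Set ℝ) :
    m.map (fun E => σ * (E - b)) ((fun E => σ * E + b) ⁻¹' S) = m S := by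
  have hσ2 : σ * σ = 1 := by rcases hσ with h | h <;> rw [h] <;> norm_num
  let e : ℝ ≃ᵐ ℝ :=
    { toFun := fun E => σ * (E - b)
      invFun := fun E => σ * E + b
      left_inv := fun E => by
        show σ * (σ * (E - b)) + b = E
        linear_combination (E - b) * hσ2
      right_inv := fun E => by
        show σ * (σ * E + b - b) = E
        linear_combination E * hσ2
      measurable_toFun := (by fun_prop : Measurable fun E : ℝ => σ * (E - b))
      measurable_invFun := (by fun_prop : Measurable fun E : ℝ => σ * E + b) }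
  have h1 : (fun E => σ * (E - b)) = e := rfl
  rw [h1, e.map_apply]
  congr 1
  ext E
  show σ * (σ * (E - b)) + b ∈ S ↔ E ∈ S
  have : σ * (σ * (E - b)) + b = E := by linear_combination (E - b) * hσ2
  rw [this]

/-- null sets under affine maps -/
theorem vol_aff (σ b : ℝ) (hσ : σ = 1 ∨ σ = -1) (S : Set ℝ) (h : volume S = 0) :
    volume ((fun E => σ * E + b) ⁻¹' S) = 0 := by
  have h1 : (fun E => σ * E + b) = (fun E => E + b) ∘ fun E => σ * E := rfl
  have h2 : volume ((fun E => E + b) ⁻¹' S) = 0 := by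
    rw [measure_preimage_add_right]
    exact h
  rw [h1, Set.preimage_comp]
  rcases hσ with hσ | hσ
  · rw [hσ]
    simpa using h2
  · rw [hσ]
    have h3 : (fun E : ℝ => -1 * E) = Neg.neg := by
      funext E
      ring
    rw [h3]
    have h4 := (Measure.measurePreserving_neg (volume : Measure ℝ)).quasiMeasurePreserving
    exact h4.preimage_null h2

end aff

/-! ### the class -/

/-- conductances: symmetric, nonnegative, constant row sums, power sums, approximation -/
structure Cls (d : ℕ) (a m : ℕ → ℝ) (A : Lt d → Lt d → ℝ) : Prop where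
  nn : ∀ x y, 0 ≤ A x y
  sy : ∀ x y, A x y = A y x
  rs : ∀ x, HasSum (fun y => A x y) (∑' k, a k * m k)
  pw : ∀ s : ℝ, 0 < s → s ≤ 1 → ∀ x, (Summable fun y => A x y ^ s) ∧
    ∑' y, A x y ^ s ≤ ∑' k, a k ^ s * m k
  ap : ∀ δ : ℝ, 0 < δ → ∃ (N R : ℕ) (h : ℝ) (B : Lt d → Lt d → ℝ), 0 < N ∧ Net N R h B ∧
    Ker δ fun x y => A x y - B x y

theorem Ker.neg {ι : Type} {h : ℝ} {k : ι → ι → ℝ} (H : Ker h k) : Ker h fun x y => -k x y where
  h0 := H.h0
  sy := fun x y => by rw [H.sy]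
  sm := fun x => by simpa only [abs_neg] using H.sm x
  le := fun x => by simpa only [abs_neg] using H.le x

theorem Net.neg {d N R : ℕ} {h : ℝ} {t : Lt d → Lt d → ℝ} (H : Net N R h t) :
    Net N R h fun x y => -t x y :=
  ⟨Ker.neg H.ker, fun x y v => by rw [H.per], fun x y hxy i => H.rng x y (neg_ne_zero.1 hxy) i⟩

/-- the Hamiltonian with conductances `A` -/
noncomputable def HamC {d : ℕ} (A : Lt d → Lt d → ℝ) (lam : ℝ) (ω : Lt d → ℝ) (u : Lt d → ℂ)
    (x : Lt d) : ℂ :=
  -∑ i : Fin d, ((u (x + Pi.single i 1) - u x) + (u (x - Pi.single i 1) - u x)) -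
    ∑' y, ((A x y : ℝ) : ℂ) * (u y - u x) + ((lam * ω x : ℝ) : ℂ) * u x

theorem Cls.ker {d : ℕ} {a m : ℕ → ℝ} {A : Lt d → Lt d → ℝ} (H : Cls d a m A) :
    Ker (∑' k, a k * m k) A where
  h0 := by
    rw [← (H.rs 0).tsum_eq]
    exact tsum_nonneg fun y => H.nn 0 y
  sy := H.sy
  sm := fun x => by
    have h1 : ∀ y, |A x y| = A x y := fun y => abs_of_nonneg (H.nn x y)
    simp only [h1]
    exact (H.rs x).summable
  le := fun x => by
    have h1 : ∀ y, |A x y| = A x y := fun y => abs_of_nonneg (H.nn x y)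
    simp only [h1]
    exact (H.rs x).tsum_eq.le

/-- square summable functions are bounded -/
theorem sq_bdd {X : Type} {u : X → ℂ} (hu : SqS u) : ∃ C : ℝ, ∀ x, ‖u x‖ ≤ C := by
  refine ⟨Real.sqrt (∑' x, ‖u x‖ ^ 2), fun x => ?_⟩
  apply Real.le_sqrt_of_sq_le
  exact hu.le_tsum x fun y _ => by positivity

theorem ker_sum {ι : Type} {h : ℝ} {k : ι → ι → ℝ} (H : Ker h k) {u : ι → ℂ} (hu : SqS u) (x : ι) :
    Summable fun y => ((k x y : ℝ) : ℂ) * u y := by
  obtain ⟨C, hC⟩ := sq_bdd hu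
  refine Summable.of_norm_bounded ((H.sm x).mul_right C) fun y => ?_
  rw [norm_mul, Complex.norm_real, Real.norm_eq_abs]
  exact mul_le_mul_of_nonneg_left (hC y) (abs_nonneg _)

/-- `HamC = HamY (-A) + κ` -/
theorem ham_c {d : ℕ} {a m : ℕ → ℝ} {A : Lt d → Lt d → ℝ} (H : Cls d a m A) (lam : ℝ)
    (ω : Lt d → ℝ) (u : Lt d → ℂ) (hu : SqS u) (x : Lt d) :
    HamC A lam ω u x = HamY (fun x y => -A x y) lam ω u x + ((∑' k, a k * m k : ℝ) : ℂ) * u x := by
  have h1 := ker_sum H.ker hu x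
  have h2 : HasSum (fun y => ((A x y : ℝ) : ℂ)) ((∑' k, a k * m k : ℝ) : ℂ) := by
    exact_mod_cast Complex.hasSum_ofReal.2 (H.rs x)
  have h3 : HasSum (fun y => ((A x y : ℝ) : ℂ) * (u y - u x))
      (∑' y, ((A x y : ℝ) : ℂ) * u y - ((∑' k, a k * m k : ℝ) : ℂ) * u x) := by
    refine (h1.hasSum.sub (h2.mul_right (u x))).congr_fun fun y => ?_
    ring
  have h4 : ∑' y, (((-A x y : ℝ)) : ℂ) * u y = -∑' y, ((A x y : ℝ) : ℂ) * u y := by
    rw [← tsum_neg]
    refine tsum_congr fun y => ?_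
    push_cast
    ring
  unfold HamC HamY
  rw [h3.tsum_eq, h4]
  ring

end Pool.Agent.H121.MY
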