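import Pool.Agent.H987.Y.Main
import Pool.Agent.H121.ME.Iface

/-! Project MY (mobility edge on the lattice): the sub-statements.

Project Y of helper987 (folder `Pool/Agent/H987/Y`) gives absolutely continuous spectrum at weak
disorder for `-Δ + A + lam ω` on `ℤ^d`, `A ≥ 0` a small limit-periodic long-range hopping. Here: the same
with `-A` instead of `A` (so that the band edge can be reached) and localized states near the edge. -/

set_option autoImplicit false

open scoped BigOperators InnerProductSpace Topology ENNReal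
open Filter MeasureTheory

namespace Pool.Agent.H121.MY

open Pool.Agent.Y662.TR (LL Cf Mw dv hu)
open Pool.Agent.H987.Y
open Pool.Agent.H121.Z987 (wt HH)

/-- **MY-G (the sign of the bonds of a tree is irrelevant).** `GB` is the Green function at the root of
the kernel `kB` (`Pool/Agent/H987/Y/Defs.lean`).

Proof. Put `s v = (-1)^(length of v.1)`. Since `bnd f o v v' ≠ 0` only if `v'.1 = (v.2, j) :: v.1`,
`kB k f o (-a) W v v' = s v * s v' * kB k f o a W v v'`. Both kernels are `Ker` (`S_troot`, proved: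
`Pool.Agent.H410.Y987.troot hop`, `hop = Pool.Agent.H168.Y987.op`). If `u = Rz (Op K) z (dv p)` then
`x ↦ s x * s p * u x` solves the resolvent equation for the kernel `s x * s y * K x y` (the action of `Op` is the
first item of `S_op`), so by `rz_uniq` (`Pool.Agent.TH369.AN`) the Green functions at `(p, p)` agree. -/
def S_gauge : Prop :=
  ∀ (X Ω : Type) (n : ℕ) (k : Ω → X → X → ℝ) (h : ℝ), (∀ ω, Ker h (k ω)) →
    ∀ (f : Bool) (o : X) (a : ℝ) (W : List (Ix X n) → Ω) (z : ℂ), z.im ≠ 0 →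
      GB k f o (-a) W z = GB k f o a W z

/-- **MY-T (the numerical range of `Op k + lam ω` reaches `κ + lam`).** `k` a kernel with constant row sums
`κ` which can be approximated by finite range kernels.

Proof. As `topB` in `Pool/Agent/H410/ME/TopB.lean` (use its `good_box`, `bx`, `card_bx`, `card_bd`; the test
functions are now the indicator functions of the boxes, without signs). Let `η > 0` be small, `B, R` the
approximation of `k` for `δ = η`, `Λ` a box of side `L`. For `x ∈ Λ` at distance `> R` from the complement of `Λ`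
`∑_{y ∈ Λ} k x y ≥ κ - ∑_{y ∉ Λ} |k x y| ≥ κ - η`, for the other `x ∈ Λ` it is `≥ -h`. So
`⟪1_Λ, Op k 1_Λ⟫ ≥ (κ - η) |Λ| - (h + |κ|) * #{boundary} `, `#{boundary} ≤ 2 d (R + 1) L^(d-1)`. If moreover
`ω ≥ 1 - η` on `Λ` then `⟪1_Λ, HH (Op k) lam ω 1_Λ⟫ ≥ (κ + lam - η(1 + lam) - C/L) |Λ| > e0 ‖1_Λ‖²`. Almost surely
`ω ≥ 1 - η` on one of infinitely many disjoint translates of `Λ` (`good_box`). -/
def S_topY : Prop :=
  ∀ (d : ℕ) (k : Lt d → Lt d → ℝ) (h κ : ℝ), 1 ≤ d → Ker h k → (∀ x, ∑' y, k x y = κ) →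
    (∀ δ : ℝ, 0 < δ → ∃ (R : ℕ) (B : Lt d → Lt d → ℝ),
      (∀ x y, B x y ≠ 0 → ∀ i, |x i - y i| ≤ (R : ℤ)) ∧ Ker δ fun x y => k x y - B x y) →
    ∀ (μ : Measure ℝ) [IsProbabilityMeasure μ], (∀ᵐ v ∂μ, |v| ≤ 1) →
    (∀ δ : ℝ, 0 < δ → 0 < μ (Set.Ioi (1 - δ))) → ∀ lam : ℝ, 0 < lam →
    ∀ e0 : ℝ, e0 < κ + lam →
    ∀ᵐ ω ∂(Measure.infinitePi fun _ : Lt d => μ), ∃ u : LL (Lt d),
      e0 * ‖u‖ ^ 2 < (⟪u, HH (Op k) lam ω u⟫_ℂ).re

/-- **MY-S (exponents close to one).** As `sig_core` in `Pool/Agent/H734/ME/Sig.lean` (dominated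
convergence, `s ↦ ∑ a^s m` is continuous from the left at `s = 1`). -/
def S_sigY : Prop :=
  ∀ (a m : ℕ → ℝ), (∀ k, 0 ≤ a k) → (∀ k, 0 ≤ m k) →
    (∀ p : ℝ, 0 < p → Summable fun k => a k ^ p * m k) → ∀ b x : ℝ, 0 ≤ b →
    b + ∑' k, a k * m k < x →
    ∃ s : ℝ, 0 < s ∧ s < 1 ∧ b + ∑' k, a k ^ s * m k < x ^ s

end Pool.Agent.H121.MY
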