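import Pool.Agent.H987.Y.It
import Pool.Agent.H121.MY.Iface

/-! Project MY: the iteration of project Y of helper987 with bonds of negative amplitude (copy of
`Pool/Agent/H987/Y/It.lean`). -/

set_option autoImplicit false
set_option linter.unusedSectionVars false

open scoped BigOperators InnerProductSpace Topology
open Filter MeasureTheory

namespace Pool.Agent.H121.MY

open Pool.Agent.Y662.TR (LL Cf Mw dv hu hu_nonneg clp clp_eq clp_abs)
open Pool.Agent.TH369.AN (Rz)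
open Pool.Agent.H987.Z (Rs Gr Fr gZ HV S_green choose_a)
open Pool.Agent.H987.Y

/-- one step of the construction of the networks -/
def StepN (d M : ℕ) (a A B θ ε : ℝ) (N : ℕ) (t : Lt (d + 1) → Lt (d + 1) → ℝ) (N' : ℕ)
    (t' : Lt (d + 1) → Lt (d + 1) → ℝ) : Prop :=
  N ∣ N' ∧ ∃ (R' : ℕ) (σ : Fin (M + 1) → Lt (d + 1) → Lt (d + 1)),
    (t' = fun x y => t x y + -a * kσ σ x y) ∧ (∀ j x, σ j (σ j x) = x) ∧
    Net N' R' (a * (M + 1)) (fun x y => -a * kσ σ x y) ∧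
    ∀ (ν : Measure ℝ) [IsProbabilityMeasure ν] (e : ℝ), 0 ≤ e → e ≤ 1 →
      (∀ z : ℂ, A ≤ z.re → z.re ≤ B → θ ≤ z.im → z.im ≤ 1 →
        ∫ W, hu (GB (kN (N := N) t) true 0 (-a) W z) (gZ (d + 1) z) ^ 2
          ∂(Measure.infinitePi fun _ : List (Ix (Lt (d + 1)) M) => PO (d + 1) N ν) ≤ e) →
      PN N' t' ν (gZ (d + 1)) A B θ 1 ((1 + ε) * e + ε)

set_option maxHeartbeats 1000000 in
/-- **the iteration** -/
theorem iterN (hgau : S_gauge) (hboot : S_bootk) (hclose : S_closek) (hnet : S_net) (hfree : S_free)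
    (hsep : S_sep) (hA : S_hullA) (hB : S_hullB) (d : ℕ) (α β α' β' c C δ0 : ℝ) (h1 : α' < α)
    (h2 : α ≤ β) (h3 : β < β') (hF : Fr (gZ (d + 1)) α' β' c C) (hδ0 : 0 < δ0) :
    ∃ (lam0 : ℝ) (Q M R : ℕ → ℕ) (a : ℕ → ℝ)
      (σ : (k : ℕ) → Fin (M k + 1) → Lt (d + 1) → Lt (d + 1)),
      0 < lam0 ∧ lam0 ≤ 1 ∧ (∀ k, 0 < Q k) ∧ (∀ k j x, σ k j (σ k j x) = x) ∧ (∀ k, 0 < a k) ∧
      (Summable fun k => a k * (M k + 1)) ∧ (∑' k, a k * (M k + 1) ≤ δ0) ∧
      (∀ p : ℝ, 0 < p → Summable fun k => a k ^ p * (M k + 1)) ∧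
      (∀ k, Net (pQ Q (k + 1)) (R k) (a k * (M k + 1)) fun x y => -a k * kσ (σ k) x y) ∧
      ∀ (ν : Measure ℝ) [IsProbabilityMeasure ν], (∀ᵐ t ∂ν, |t| ≤ lam0) →
        ∀ z : ℂ, α ≤ z.re → z.re ≤ β → 0 < z.im → z.im ≤ 1 → ∀ x : Lt (d + 1),
          ∫ q : Hu (d + 1) Q × (Lt (d + 1) → ℝ), hu (Gr (Op fun y y' => kf (d + 1) y y' +
            tA (fun k x y => -a k * kσ (σ k) x y) q.1 y y' + dg q.2 y y') z x x)
              (gZ (d + 1) z) ^ 2
            ∂((PH (d + 1) Q).prod (Measure.infinitePi fun _ : Lt (d + 1) => ν)) ≤ 1 / 100 := by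
  have hc0 := hF.c0
  obtain ⟨κt, hκt⟩ : ∃ κt : ℝ, κt = min (α - α') (β' - β) := ⟨_, rfl⟩
  have hκt0 : 0 < κt := by
    rw [hκt]
    exact lt_min (by linarith) (by linarith)
  have hκ1 : κt ≤ α - α' := by rw [hκt]; exact min_le_left _ _
  have hκ2 : κt ≤ β' - β := by rw [hκt]; exact min_le_right _ _
  obtain ⟨q, hq⟩ : ∃ q : ℕ → ℝ, q = fun n => (1 / 2) ^ n := ⟨_, rfl⟩
  have hq0 : ∀ n, 0 < q n := by intro n; rw [hq]; positivity
  have hq1 : ∀ n, q n ≤ 1 := by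
    intro n
    rw [hq]
    exact pow_le_one₀ (by norm_num) (by norm_num)
  have hqs : ∀ n, q (n + 1) = q n / 2 := by
    intro n
    rw [hq]
    simp only
    rw [pow_succ]
    ring
  obtain ⟨A, hA'⟩ : ∃ A : ℕ → ℝ, A = fun n => α' + κt * (1 - q n) := ⟨_, rfl⟩
  obtain ⟨B, hB'⟩ : ∃ B : ℕ → ℝ, B = fun n => β' - κt * (1 - q n) := ⟨_, rfl⟩
  have hA1 : ∀ n, α' ≤ A n := by
    intro n
    rw [hA']
    have := hq1 n
    simp only
    nlinarith
  have hA2 : ∀ n, A n ≤ α := by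
    intro n
    rw [hA']
    have := hq0 n
    simp only
    nlinarith
  have hB1 : ∀ n, B n ≤ β' := by
    intro n
    rw [hB']
    have := hq1 n
    simp only
    nlinarith
  have hB2 : ∀ n, β ≤ B n := by
    intro n
    rw [hB']
    have := hq0 n
    simp only
    nlinarith
  have hAs : ∀ n, A n + κt * q (n + 1) ≤ A (n + 1) := by
    intro n
    rw [hA']
    simp only
    rw [hqs]
    linarith
  have hBs : ∀ n, B (n + 1) + κt * q (n + 1) ≤ B n := by
    intro n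
    rw [hB']
    simp only
    rw [hqs]
    linarith
  have hFn : ∀ n, Fr (gZ (d + 1)) (A n) (B n) c C := fun n => hF.mono (hA1 n) (hB1 n)
  have hAB : ∀ n, A n ≤ B n := fun n => ((hA2 n).trans h2).trans (hB2 n)
  obtain ⟨ε, hε⟩ : ∃ ε : ℕ → ℝ, ε = fun n => q n / 10000 := ⟨_, rfl⟩
  obtain ⟨e, he⟩ : ∃ e : ℕ → ℝ, e = fun n => (2 - q n) / 1000 := ⟨_, rfl⟩
  have hε0 : ∀ n, 0 < ε n := by intro n; rw [hε]; have := hq0 n; positivity
  have hε1 : ∀ n, ε n ≤ 1 := by intro n; rw [hε]; have := hq1 n; simp only; linarith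
  have he0 : ∀ n, 1 / 1000 ≤ e n := by intro n; rw [he]; have := hq1 n; simp only; linarith
  have he1 : ∀ n, e n ≤ 2 / 1000 := by intro n; rw [he]; have := hq0 n; simp only; linarith
  have hf1 : ∀ n, (1 + ε n) * e n + ε n ≤ 1 / 200 := by
    intro n
    have a1 := hε0 n
    have a2 : ε n ≤ 1 / 10000 := by rw [hε]; have := hq1 n; simp only; linarith
    have a3 := he1 n
    have a4 := he0 n
    nlinarith
  have hes : ∀ n, (1 + ε n) * ((1 + ε n) * e n + ε n) + ε n ≤ e (n + 1) := by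
    intro n
    have a3 := he1 n
    have a4 := he0 n
    have a5 := hf1 n
    have b1 : ε n = q n / 10000 := by rw [hε]
    have b2 : e n = (2 - q n) / 1000 := by rw [he]
    have b3 : e (n + 1) = (2 - q n / 2) / 1000 := by rw [he]; simp only; rw [hqs]
    have b4 := hq0 n
    have b5 := hq1 n
    obtain ⟨f, hf⟩ : ∃ f, f = (1 + ε n) * e n + ε n := ⟨_, rfl⟩
    rw [← hf] at a5 ⊢
    have b6 : f ≤ e n + 2 * ε n := by
      rw [hf]
      have : 0 < ε n := hε0 n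
      nlinarith
    have b7 : ε n * f ≤ ε n := by
      have : 0 < ε n := hε0 n
      nlinarith
    have b8 : (1 + ε n) * f + ε n ≤ e n + 4 * ε n := by nlinarith
    rw [b1, b2] at b8
    rw [b3, b1]
    linarith
  -- choices
  have hch := fun n => hboot (gZ (d + 1)) (A n) (B n) c C (ε n) (κt * q (n + 1)) (hFn n) (hε0 n)
    (hε1 n) (mul_pos hκt0 (hq0 _)) (hAB n)
  choose M0 l0 hl0 hbt using hch
  obtain ⟨M, hM⟩ : ∃ M : ℕ → ℕ, M = M0 := ⟨_, rfl⟩
  obtain ⟨δ1, hδ1, hcl1⟩ := hclose (d + 1) α' β' c C hF 1 (1 / 1000) one_pos (by norm_num)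
  obtain ⟨δ, hδ⟩ : ∃ δ : ℝ, δ = min δ0 (δ1 / 4) := ⟨_, rfl⟩
  have hδp : 0 < δ := by rw [hδ]; positivity
  have hδa : δ ≤ δ0 := by rw [hδ]; exact min_le_left _ _
  have hδb : δ ≤ δ1 / 4 := by rw [hδ]; exact min_le_right _ _
  obtain ⟨a, ha0, ha1, ha2, ha3, ha4, ha5⟩ := choose_a l0 hl0 M c δ hc0 hδp
  have hgeo : HasSum (fun n : ℕ => δ * (1 / 2 : ℝ) ^ (n + 1)) δ := by
    have h5 := (hasSum_geometric_two).mul_left (δ * (1 / 2))
    have h6 : δ * (1 / 2) * 2 = δ := by ring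
    rw [h6] at h5
    refine h5.congr_fun ?_ |> fun h => h
    intro n
    ring
  have hsm : Summable fun n => a n * (M n + 1) := by
    refine Summable.of_nonneg_of_le (fun n => ?_) ha3 hgeo.summable
    have := ha0 n
    positivity
  have hsum : ∑' n, a n * (M n + 1) ≤ δ := by
    rw [← hgeo.tsum_eq]
    exact hsm.tsum_le_tsum ha3 hgeo.summable
  obtain ⟨θ, hθ⟩ : ∃ θ : ℕ → ℝ, θ = fun n => a n ^ 2 * (M n + 1) * (c / 2) := ⟨_, rfl⟩
  have hθ0 : ∀ n, 0 < θ n := by intro n; rw [hθ]; have := ha0 n; positivity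
  have hθ1 : ∀ n, θ n ≤ 1 := by intro n; rw [hθ]; exact ha2 n
  obtain ⟨δ2, hδ2, hcl2⟩ := hclose (d + 1) α' β' c C hF (θ 0) (1 / 1000) (hθ0 0) (by norm_num)
  -- the networks
  obtain ⟨fk1, fk2, fk3, fk4⟩ := hfree (d + 1)
  have hrec := dchoice (S := {s : ℕ × ℕ × ℝ × (Lt (d + 1) → Lt (d + 1) → ℝ) //
      1 ≤ s.1 ∧ Net s.1 s.2.1 s.2.2.1 s.2.2.2}) ⟨⟨1, 1, 4 * ((d + 1 : ℕ) : ℝ), kf (d + 1)⟩, le_rfl, fk2⟩
    (fun n s s' => StepN d (M n) (a n) (A (n + 1)) (B (n + 1)) (θ (n + 1)) (ε n) s.1.1 s.1.2.2.2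
      s'.1.1 s'.1.2.2.2) (by
      rintro n ⟨⟨N, R, h, t⟩, hN, ht⟩
      obtain ⟨N', R', σ, k1, k2, k3, k4, k5⟩ := hnet d (gZ (d + 1)) (A (n + 1)) (B (n + 1)) c C
        (hFn (n + 1)) (θ (n + 1)) (ε n) (hθ0 _) (hθ1 _) (hε0 n) (hε1 n) N R (M n) t (-a n) h hN ht
      rw [abs_neg, abs_of_pos (ha0 n)] at k4
      refine ⟨⟨⟨N', max R R', h + a n * (M n + 1), fun x y => t x y + -a n * kσ σ x y⟩, k1, ?_⟩,
        k2, R', σ, rfl, k3, k4, k5⟩
      exact ((ht.dvd k2).mono (le_max_left _ _) le_rfl).add (k4.mono (le_max_right _ _) le_rfl))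
  obtain ⟨sq, hsq0, hsq⟩ := hrec
  obtain ⟨N, hN⟩ : ∃ N : ℕ → ℕ, N = fun n => (sq n).1.1 := ⟨_, rfl⟩
  obtain ⟨t, ht⟩ : ∃ t : ℕ → Lt (d + 1) → Lt (d + 1) → ℝ, t = fun n => (sq n).1.2.2.2 := ⟨_, rfl⟩
  have hst' : ∀ n, StepN d (M n) (a n) (A (n + 1)) (B (n + 1)) (θ (n + 1)) (ε n) (N n) (t n)
      (N (n + 1)) (t (n + 1)) := by
    intro n
    rw [hN, ht]
    exact hsq n
  have hN1 : ∀ n, 1 ≤ N n := fun n => by rw [hN]; exact (sq n).2.1
  have hN0 : N 0 = 1 := by rw [hN]; simp only; rw [hsq0]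
  have ht0 : t 0 = kf (d + 1) := by rw [ht]; simp only; rw [hsq0]
  clear hN ht hsq hsq0
  choose hdv R σ hst hinv hnt hbd using hst'
  obtain ⟨Q, hQ⟩ : ∃ Q : ℕ → ℕ, N = pQ Q := by
    refine ⟨fun n => N (n + 1) / N n, ?_⟩
    funext n
    induction n with
    | zero => rw [hN0]; simp [pQ]
    | succ n ih =>
      unfold pQ at ih ⊢
      rw [Finset.prod_range_succ, ← ih]
      exact (Nat.mul_div_cancel' (hdv n)).symm
  have hQ0 : ∀ k, 0 < Q k := by
    intro k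
    have h5 := hN1 (k + 1)
    rw [hQ] at h5
    unfold pQ at h5
    rw [Finset.prod_range_succ] at h5
    rcases Nat.eq_zero_or_pos (Q k) with h6 | h6
    · rw [h6] at h5; omega
    · exact h6
  rw [hQ] at hN1 hnt hbd
  obtain ⟨Ak, hAk⟩ : ∃ Ak : ℕ → Lt (d + 1) → Lt (d + 1) → ℝ,
      Ak = fun k x y => -a k * kσ (σ k) x y := ⟨_, rfl⟩
  have htn : ∀ n, t n = tn Ak n := by
    intro n
    induction n with
    | zero =>
      rw [ht0]
      funext x y
      simp [tn]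
    | succ n ih =>
      rw [hst n, ih]
      funext x y
      unfold tn
      rw [Finset.sum_range_succ, hAk]
      ring
  have hnt' : ∀ k, Net (pQ Q (k + 1)) (R k) (a k * (M k + 1)) (Ak k) := by
    intro k
    rw [hAk]
    exact hnt k
  obtain ⟨u1, u2, u3, u4, u5, u6⟩ := hA (d + 1) Q Ak (fun k => a k * (M k + 1)) R hQ0 hnt' hsm
  refine ⟨min (δ1 / 4) (min δ2 1), Q, M, R, a, σ, by positivity,
    (min_le_right _ _).trans (min_le_right _ _), hQ0, hinv, ha0, hsm, hsum.trans hδa, ha5, hnt,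
    ?_⟩
  intro ν _ hν z hz1 hz2 hz3 hz4
  obtain ⟨lam0, hlam0⟩ : ∃ lam0, lam0 = min (δ1 / 4) (min δ2 1) := ⟨_, rfl⟩
  rw [← hlam0] at hν
  have hlp : 0 < lam0 := by rw [hlam0]; positivity
  have hl1 : lam0 ≤ 1 := by rw [hlam0]; exact (min_le_right _ _).trans (min_le_right _ _)
  have hl2 : lam0 ≤ δ1 / 4 := by rw [hlam0]; exact min_le_left _ _
  have hl3 : lam0 ≤ δ2 := by rw [hlam0]; exact (min_le_right _ _).trans (min_le_left _ _)
  -- the distance to the free kernel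
  have hpart : ∀ n, ∑ k ∈ Finset.range n, a k * ((M k : ℝ) + 1) ≤ δ := by
    intro n
    refine (hsm.sum_le_tsum _ fun k _ => ?_).trans hsum
    have := ha0 k
    positivity
  have hker : ∀ n, Ker (∑ k ∈ Finset.range n, a k * ((M k : ℝ) + 1)) fun x y =>
      tn Ak n x y - kf (d + 1) x y := by
    intro n
    induction n with
    | zero =>
      have h5 : Ker (0 : ℝ) fun _ _ : Lt (d + 1) => (0 : ℝ) :=
        ⟨le_rfl, fun _ _ => rfl, fun x => by simp, fun x => by simp⟩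
      rw [Finset.sum_range_zero]
      refine h5.congr fun x y => ?_
      simp [tn]
    | succ n ih =>
      rw [Finset.sum_range_succ]
      refine (ih.add (hnt' n).ker).congr fun x y => ?_
      unfold tn
      rw [Finset.sum_range_succ]
      ring
  have hkN : ∀ n, ∀ᵐ ω ∂(PO (d + 1) (pQ Q n) ν),
      Ker (δ + lam0) fun x y => kN (N := pQ Q n) (tn Ak n) ω x y - kf (d + 1) x y := by
    intro n
    filter_upwards [ae_PO (hN1 n) hsep ν lam0 hν hl1] with ω hω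
    exact ker_kN hfree ((hker n).mono (hpart n)) ω lam0 hlp.le hω
  have hkN0 : ∀ᵐ ω ∂(PO (d + 1) (pQ Q 0) ν),
      Ker lam0 fun x y => kN (N := pQ Q 0) (tn Ak 0) ω x y - kf (d + 1) x y := by
    filter_upwards [ae_PO (hN1 0) hsep ν lam0 hν hl1] with ω hω
    refine (ker_kN hfree (hker 0) ω lam0 hlp.le hω).mono ?_
    simp
  have hnet' : ∀ n, ∃ h, ∀ ω : Om (d + 1) (pQ Q n), Ker h (kN (tn Ak n) ω) := by
    intro n
    obtain ⟨R', hR'⟩ := u4 n
    exact ⟨_, fun ω => ker_kN' hR'.ker ω⟩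
  have hprob : ∀ n, IsProbabilityMeasure (PO (d + 1) (pQ Q n) ν) := fun n =>
    (hsep (d + 1) (pQ Q n) 0 ν (hN1 n)).2.1
  have hind : ∀ n, PN (pQ Q n) (tn Ak n) ν (gZ (d + 1)) (A n) (B n) (θ n) 2 (e n) := by
    intro n
    induction n with
    | zero =>
      intro z hz1 hz2 hz3 hz4
      refine le_trans ?_ (he0 0)
      have := hprob 0
      obtain ⟨h, hh⟩ := hnet' 0
      exact (hcl2 _ (PO (d + 1) (pQ Q 0) ν) (kN (tn Ak 0)) h lam0 hh (fun x y => meas_kN _ x y)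
        hkN0 z ((hA1 0).trans hz1) (hz2.trans (hB1 0)) hz3 hz4).1 hl3
    | succ n ih =>
      intro z hz1 hz2 hz3 hz4
      rcases le_total z.im 1 with hz5 | hz5
      · have hbn := hbd n ν ((1 + ε n) * e n + ε n) (by
          have := he0 n
          have := hε0 n
          positivity) ((hf1 n).trans (by norm_num)) ?_
        · rw [htn (n + 1)] at hbn
          exact (hbn z hz1 hz2 hz3 hz5).trans (hes n)
        · intro z' hz1' hz2' hz3' hz4'
          rw [htn n]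
          have := hprob n
          obtain ⟨h, hh⟩ := hnet' n
          have hz0' : z'.im ≠ 0 := ((hθ0 _).trans_le hz3').ne'
          simp only [hgau _ _ _ _ h hh true 0 (a n) _ z' hz0']
          refine hbt n (A (n + 1)) (B (n + 1)) (hAs n) (hBs n) (Lt (d + 1)) _
            (PO (d + 1) (pQ Q n) ν) 0 (M n) (kN (tn Ak n)) h (by rw [hM]; omega) hh
            (fun x y => meas_kN _ x y) (a n) (ha0 n) (ha1 n) (e n)
            (by have := he0 n; linarith) (hf1 n) ?_ ?_ z' hz1' hz2'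
            ((hθ0 _).trans_le hz3') hz4' true
          · have ih' := ih
            rw [hθ] at ih'
            exact ih'
          · intro z'' y1 y2 y3
            refine ((hcl1 _ (PO (d + 1) (pQ Q n) ν) (kN (tn Ak n)) h (δ + lam0) hh
              (fun x y => meas_kN _ x y) (hkN n) z'' ((hA1 _).trans y1) (y2.trans (hB1 _)) y3.ge
              (by rw [y3]; norm_num)).2 (M n) (a n) ?_ false).trans (by norm_num)
            rw [abs_of_pos (ha0 n)]
            have h5 := ha3 n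
            have h6 : ((1 : ℝ) / 2) ^ (n + 1) ≤ 1 / 2 := by
              rw [pow_succ]
              have : ((1 : ℝ) / 2) ^ n ≤ 1 := pow_le_one₀ (by norm_num) (by norm_num)
              linarith
            have h7 : δ * (1 / 2) ^ (n + 1) ≤ δ * (1 / 2) := by gcongr
            have h8 : a n * ((M n : ℝ) + 2) ≤ 2 * (a n * (M n + 1)) := by
              have h9 : (0 : ℝ) ≤ M n := Nat.cast_nonneg _
              have h10 := ha0 n
              nlinarith
            linarith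
      · refine le_trans ?_ (he0 (n + 1))
        have := hprob (n + 1)
        obtain ⟨h, hh⟩ := hnet' (n + 1)
        refine (hcl1 _ (PO (d + 1) (pQ Q (n + 1)) ν) (kN (tn Ak (n + 1))) h (δ + lam0) hh
          (fun x y => meas_kN _ x y) (hkN (n + 1)) z ((hA1 _).trans hz1)
          (hz2.trans (hB1 _)) hz5 hz4).1 ?_
        linarith
  -- the limit
  intro x
  have hgz : 0 < (gZ (d + 1) z).im :=
    hc0.trans_le (hF.lo z (by linarith) (by linarith) hz3 (by linarith))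
  have hfin := hB (d + 1) Q Ak (fun k => a k * (M k + 1)) R hQ0 hnt' hsm ν z (gZ (d + 1) z)
    (1 / 100) hz3 hgz ?_ x
  · rw [hAk] at hfin
    exact hfin
  · have h5 : Tendsto θ atTop (𝓝 0) := by
      have h6 : Tendsto (fun n => c / 2 * (a n * (M n + 1))) atTop (𝓝 (c / 2 * 0)) :=
        hsm.tendsto_atTop_zero.const_mul _
      rw [mul_zero] at h6
      refine squeeze_zero (fun n => (hθ0 n).le) (fun n => ?_) h6
      rw [hθ]
      exact ha4 n
    filter_upwards [h5.eventually_le_const hz3] with n hn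
    refine (hind n z ((hA2 n).trans hz1) (hz2.trans (hB2 n)) hn (by linarith)).trans ?_
    have := he1 n
    linarith

end Pool.Agent.H121.MY
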